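import Mathlib

/-!
Extension of a holomorphic function across the circle of convergence.
-/

set_option autoImplicit false

open Complex Metric Set Filter Topology ComplexConjugate
open scoped ENNReal NNReal

namespace Pool.Agent.P8H73.SF

/-- a function holomorphic in a disc that extends across every boundary point extends to a larger
disc -/
theorem glue (R : ℝ) (hR : 0 < R) (ψ : ℂ → ℂ) (hψ : DifferentiableOn ℂ ψ (ball 0 R))
    (h : ∀ w ∈ sphere (0 : ℂ) R, ∃ (ε : ℝ) (E : ℂ → ℂ), 0 < ε ∧ DifferentiableOn ℂ E (ball w ε) ∧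
      ∀ z ∈ ball w ε ∩ ball 0 R, E z = ψ z) :
    ∃ (R' : ℝ) (ψ' : ℂ → ℂ), R < R' ∧ DifferentiableOn ℂ ψ' (ball 0 R') ∧
      EqOn ψ' ψ (ball 0 R) := by
  choose! ε E hε hE hEψ using h
  obtain ⟨δ, hδ, hleb⟩ := lebesgue_number_lemma_of_metric
    (c := fun i : sphere (0 : ℂ) R => ball (i : ℂ) (ε i)) (isCompact_sphere (0 : ℂ) R)
    (fun i => isOpen_ball) (fun w hw => mem_iUnion.2 ⟨⟨w, hw⟩, mem_ball_self (hε w hw)⟩)
  have hex : ∀ w ∈ sphere (0 : ℂ) R, ∃ F : ℂ → ℂ, DifferentiableOn ℂ F (ball w δ) ∧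
      ∀ z ∈ ball w δ ∩ ball 0 R, F z = ψ z := by
    intro w hw
    obtain ⟨i, hi⟩ := hleb w hw
    exact ⟨E i, (hE i i.2).mono hi, fun z hz => hEψ i i.2 z ⟨hi hz.1, hz.2⟩⟩
  choose! F hF hFψ using hex
  -- compatibility
  have hcomp : ∀ w ∈ sphere (0 : ℂ) R, ∀ w' ∈ sphere (0 : ℂ) R, ‖w - w'‖ < δ →
      EqOn (F w) (F w') (ball w δ ∩ ball w' δ) := by
    intro w hw w' hw' hww
    have hcv : Convex ℝ (ball w δ ∩ ball w' δ) := (convex_ball w δ).inter (convex_ball w' δ)
    have hop : IsOpen (ball w δ ∩ ball w' δ) := isOpen_ball.inter isOpen_ball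
    obtain ⟨s, hs0, hs1, hs2⟩ : ∃ s : ℝ, 0 < s ∧ s < 1 ∧ s * R < δ - ‖w - w'‖ := by
      refine ⟨min (1 / 2) ((δ - ‖w - w'‖) / (2 * R)), ?_, ?_, ?_⟩
      · exact lt_min (by norm_num) (div_pos (by linarith) (by linarith))
      · exact lt_of_le_of_lt (min_le_left _ _) (by norm_num)
      · have h1 : min (1 / 2) ((δ - ‖w - w'‖) / (2 * R)) * R ≤ (δ - ‖w - w'‖) / (2 * R) * R :=
          mul_le_mul_of_nonneg_right (min_le_right _ _) hR.le
        have h2 : (δ - ‖w - w'‖) / (2 * R) * R = (δ - ‖w - w'‖) / 2 := by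
          field_simp
        rw [h2] at h1
        linarith
    obtain ⟨q, hq⟩ : ∃ q : ℂ, q = ((1 - s : ℝ) : ℂ) * w' := ⟨_, rfl⟩
    have hw'n : ‖w'‖ = R := by simpa using hw'
    have hq0 : q ∈ ball (0 : ℂ) R := by
      rw [mem_ball_zero_iff, hq, norm_mul, Complex.norm_real, Real.norm_of_nonneg (by linarith),
        hw'n]
      nlinarith
    have hqw' : ‖q - w'‖ = s * R := by
      have : q - w' = ((-s : ℝ) : ℂ) * w' := by
        rw [hq]
        push_cast
        ring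
      rw [this, norm_mul, Complex.norm_real, norm_neg, Real.norm_of_nonneg hs0.le, hw'n]
    have hq1 : q ∈ ball w' δ := by
      rw [mem_ball_iff_norm, hqw']
      have := norm_nonneg (w - w')
      linarith
    have hq2 : q ∈ ball w δ := by
      rw [mem_ball_iff_norm]
      have h1 : ‖q - w‖ ≤ ‖q - w'‖ + ‖w' - w‖ := by
        have := norm_add_le (q - w') (w' - w)
        rwa [sub_add_sub_cancel] at this
      rw [norm_sub_rev w' w] at h1
      linarith
    refine AnalyticOnNhd.eqOn_of_preconnected_of_eventuallyEq (z₀ := q)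
      (((hF w hw).mono inter_subset_left).analyticOnNhd hop)
      (((hF w' hw').mono inter_subset_right).analyticOnNhd hop) hcv.isPreconnected ⟨hq2, hq1⟩ ?_
    filter_upwards [(hop.inter (isOpen_ball : IsOpen (ball (0 : ℂ) R))).mem_nhds
      ⟨⟨hq2, hq1⟩, hq0⟩] with z hz
    rw [hFψ w hw z ⟨hz.1.1, hz.2⟩, hFψ w' hw' z ⟨hz.1.2, hz.2⟩]
  -- the radial projection
  obtain ⟨pr, hpr⟩ : ∃ pr : ℂ → ℂ, pr = fun z => ((R / ‖z‖ : ℝ) : ℂ) * z := ⟨_, rfl⟩
  have hprs : ∀ z : ℂ, R ≤ ‖z‖ → pr z ∈ sphere (0 : ℂ) R ∧ ‖z - pr z‖ = ‖z‖ - R := by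
    intro z hz
    have hz0 : 0 < ‖z‖ := by linarith
    constructor
    · rw [mem_sphere_zero_iff_norm, hpr]
      simp only [norm_mul, Complex.norm_real]
      rw [Real.norm_of_nonneg (by positivity), div_mul_cancel₀ _ hz0.ne']
    · have : z - pr z = ((1 - R / ‖z‖ : ℝ) : ℂ) * z := by
        rw [hpr]
        push_cast
        ring
      rw [this, norm_mul, Complex.norm_real, Real.norm_of_nonneg]
      · field_simp
      · rw [sub_nonneg, div_le_one hz0]
        exact hz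
  classical
  refine ⟨R + δ / 4, fun z => if ‖z‖ < R then ψ z else F (pr z) z, by linarith, ?_, ?_⟩
  · intro z0 hz0
    rw [mem_ball_zero_iff] at hz0
    apply DifferentiableAt.differentiableWithinAt
    rcases lt_or_ge ‖z0‖ R with hlt | hge
    · refine (hψ.differentiableAt (isOpen_ball.mem_nhds (mem_ball_zero_iff.2 hlt))).congr_of_eventuallyEq ?_
      filter_upwards [isOpen_ball.mem_nhds (mem_ball_zero_iff.2 hlt)] with z hz
      exact if_pos (mem_ball_zero_iff.1 hz)
    · obtain ⟨h1, h2⟩ := hprs z0 hge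
      have h3 : z0 ∈ ball (pr z0) δ := by
        rw [mem_ball_iff_norm, h2]
        linarith
      refine ((hF (pr z0) h1).differentiableAt (isOpen_ball.mem_nhds h3)).congr_of_eventuallyEq ?_
      filter_upwards [ball_mem_nhds z0 (show 0 < δ / 4 by linarith)] with z hz
      rw [mem_ball_iff_norm] at hz
      have h4 : ‖z - pr z0‖ < δ / 2 := by
        have := norm_add_le (z - z0) (z0 - pr z0)
        rw [sub_add_sub_cancel] at this
        linarith
      have h5 : ‖z‖ < R + δ / 2 := by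
        have := norm_add_le (z - z0) z0
        rw [sub_add_cancel] at this
        linarith
      show (if ‖z‖ < R then ψ z else F (pr z) z) = F (pr z0) z
      split_ifs with hz1
      · exact (hFψ (pr z0) h1 z ⟨mem_ball_iff_norm.2 (by linarith), mem_ball_zero_iff.2 hz1⟩).symm
      · obtain ⟨h6, h7⟩ := hprs z (not_lt.1 hz1)
        have h8 : ‖pr z - pr z0‖ < δ := by
          have := norm_add_le (pr z - z) (z - pr z0)
          rw [sub_add_sub_cancel, norm_sub_rev (pr z) z, h7] at this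
          linarith
        refine hcomp (pr z) h6 (pr z0) h1 h8 ⟨mem_ball_iff_norm.2 ?_, mem_ball_iff_norm.2 ?_⟩
        · rw [h7]
          linarith
        · linarith
  · intro z hz
    exact if_pos (mem_ball_zero_iff.1 hz)

/-- a function all of whose continuations to discs about `0` extend across the boundary is entire -/
theorem entire_of (φ : ℂ → ℂ) (r : ℝ) (hr : 0 < r) (hφ : DifferentiableOn ℂ φ (ball 0 r))
    (hext : ∀ (R : ℝ) (ψ : ℂ → ℂ), r ≤ R → DifferentiableOn ℂ ψ (ball 0 R) →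
      EqOn ψ φ (ball 0 r) → ∀ w ∈ sphere (0 : ℂ) R, ∃ (ε : ℝ) (E : ℂ → ℂ), 0 < ε ∧
        DifferentiableOn ℂ E (ball w ε) ∧ ∀ z ∈ ball w ε ∩ ball 0 R, E z = ψ z) :
    ∃ ψ : ℂ → ℂ, Differentiable ℂ ψ ∧ EqOn ψ φ (ball 0 r) := by
  obtain ⟨r0, hr0⟩ : ∃ r0 : ℝ≥0, r0 = ⟨r / 2, by linarith⟩ := ⟨_, rfl⟩
  have hr0p : 0 < r0 := by
    rw [hr0]
    exact_mod_cast (by linarith : (0 : ℝ) < r / 2)
  have hr0r : (r0 : ℝ) < r := by
    rw [hr0]
    show r / 2 < r
    linarith
  have hp := DifferentiableOn.hasFPowerSeriesOnBall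
    (hφ.mono (closedBall_subset_ball hr0r)) hr0p
  obtain ⟨p, hpd⟩ : ∃ p : FormalMultilinearSeries ℂ ℂ ℂ, p = cauchyPowerSeries φ 0 r0 := ⟨_, rfl⟩
  rw [← hpd] at hp
  have hrad : ∀ (R : ℝ) (ψ : ℂ → ℂ), 0 < R → DifferentiableOn ℂ ψ (ball 0 R) →
      ψ =ᶠ[𝓝 0] φ → ENNReal.ofReal R ≤ p.radius := by
    intro R ψ hR hψ hψφ
    refine le_of_forall_lt fun x hx => ?_
    obtain ⟨y, hy1, hy2⟩ := ENNReal.lt_iff_exists_nnreal_btwn.1 hx
    rcases eq_or_ne y 0 with hy0 | hy0
    · rw [hy0] at hy1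
      simp at hy1
    have hyp : 0 < y := pos_iff_ne_zero.2 hy0
    have hyR : (y : ℝ) < R := by
      have := (ENNReal.lt_ofReal_iff_toReal_lt ENNReal.coe_ne_top).1 hy2
      simpa using this
    have h1 := DifferentiableOn.hasFPowerSeriesOnBall
      (hψ.mono (closedBall_subset_ball hyR)) hyp
    have h2 : HasFPowerSeriesAt φ (cauchyPowerSeries ψ 0 y) 0 :=
      h1.hasFPowerSeriesAt.congr hψφ
    have h3 := h2.eq_formalMultilinearSeries hp.hasFPowerSeriesAt
    have h4 := h1.r_le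
    rw [h3] at h4
    exact lt_of_lt_of_le hy1 h4
  have hpos : 0 < p.radius := lt_of_lt_of_le (by exact_mod_cast hr0p) hp.r_le
  have hsum := p.hasFPowerSeriesOnBall hpos
  have hev : p.sum =ᶠ[𝓝 0] φ := by
    have h1 := (hsum.mono (by exact_mod_cast hr0p) hp.r_le).unique hp
    filter_upwards [Metric.eball_mem_nhds (0 : ℂ) (by exact_mod_cast hr0p : (0 : ℝ≥0∞) < r0)] with z hz
    exact h1 hz
  have hsumd : DifferentiableOn ℂ p.sum (Metric.eball 0 p.radius) := hsum.differentiableOn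
  have hrle : ENNReal.ofReal r ≤ p.radius := hrad r φ hr hφ (EventuallyEq.refl _ _)
  have hEqOn : EqOn p.sum φ (ball 0 r) := by
    have hsub : ball (0 : ℂ) r ⊆ Metric.eball 0 p.radius := by
      intro z hz
      rw [mem_ball, ← edist_lt_ofReal] at hz
      exact lt_of_lt_of_le hz hrle
    exact AnalyticOnNhd.eqOn_of_preconnected_of_eventuallyEq (z₀ := 0)
      ((hsumd.mono hsub).analyticOnNhd isOpen_ball) (hφ.analyticOnNhd isOpen_ball)
      (convex_ball (0 : ℂ) r).isPreconnected (mem_ball_self hr) hev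
  rcases eq_or_ne p.radius ⊤ with htop | htop
  · refine ⟨p.sum, ?_, hEqOn⟩
    rw [← differentiableOn_univ]
    refine hsumd.mono fun z _ => ?_
    rw [htop]
    exact edist_lt_top _ _
  · exfalso
    obtain ⟨R, hR⟩ : ∃ R : ℝ, R = p.radius.toReal := ⟨_, rfl⟩
    have hRr : ENNReal.ofReal R = p.radius := by rw [hR, ENNReal.ofReal_toReal htop]
    have hrR : r ≤ R := by
      rw [hR]
      exact (ENNReal.ofReal_le_iff_le_toReal htop).1 hrle
    have hRpos : 0 < R := by linarith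
    have hball : ball (0 : ℂ) R ⊆ Metric.eball 0 p.radius := by
      intro z hz
      rw [mem_ball, ← edist_lt_ofReal, hRr] at hz
      exact hz
    have hd : DifferentiableOn ℂ p.sum (ball 0 R) := hsumd.mono hball
    obtain ⟨R', ψ', hR', hψ', hE⟩ := glue R hRpos p.sum hd (hext R p.sum hrR hd hEqOn)
    have h1 : ψ' =ᶠ[𝓝 0] φ := by
      filter_upwards [ball_mem_nhds (0 : ℂ) hRpos, hev] with z hz hz'
      rw [hE hz, hz']
    have h2 := hrad R' ψ' (by linarith) hψ' h1
    rw [← hRr] at h2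
    have h3 := (ENNReal.ofReal_le_ofReal_iff hRpos.le).1 h2
    linarith

end Pool.Agent.P8H73.SF
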