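import Mathlib

/-!
Local analysis of the roots of a polynomial equation with holomorphic coefficients.
-/

set_option autoImplicit false

open Complex Metric Set Filter Topology ComplexConjugate

namespace Pool.Agent.P8H73.SF

/-- the polynomial -/
noncomputable def HH (N : ℕ) (h : ℕ → ℂ → ℂ) (w Z : ℂ) : ℂ :=
  ∑ i ∈ Finset.range (N + 1), h i w * Z ^ i

/-- its derivative -/
noncomputable def HD (N : ℕ) (h : ℕ → ℂ → ℂ) (w Z : ℂ) : ℂ :=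
  ∑ i ∈ Finset.range (N + 1), h i w * ((i : ℂ) * Z ^ (i - 1))

theorem HH_analytic (N : ℕ) (h : ℕ → ℂ → ℂ) (w1 Z0 : ℂ) (hh : ∀ i ≤ N, AnalyticAt ℂ (h i) w1) :
    AnalyticAt ℂ (fun p : ℂ × ℂ => HH N h p.1 p.2) (w1, Z0) := by
  unfold HH
  refine Finset.analyticAt_fun_sum _ fun i hi => ?_
  have hi' : i ≤ N := by
    have := Finset.mem_range.1 hi
    omega
  have h1 : AnalyticAt ℂ (fun p : ℂ × ℂ => h i p.1) (w1, Z0) :=
    AnalyticAt.comp (f := fun p : ℂ × ℂ => p.1) (x := (w1, Z0)) (hh i hi') analyticAt_fst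
  have h2 : AnalyticAt ℂ (fun p : ℂ × ℂ => p.2 ^ i) (w1, Z0) := analyticAt_snd.pow i
  exact h1.mul h2

theorem HH_deriv (N : ℕ) (h : ℕ → ℂ → ℂ) (w Z : ℂ) :
    HasDerivAt (fun Z => HH N h w Z) (HD N h w Z) Z := by
  unfold HH HD
  refine HasDerivAt.fun_sum fun i _ => ?_
  exact (hasDerivAt_pow i Z).const_mul (h i w)

/-- a simple root depends holomorphically on the parameter and is locally unique -/
theorem simple_root (N : ℕ) (h : ℕ → ℂ → ℂ) (w1 Z0 : ℂ) (hh : ∀ i ≤ N, AnalyticAt ℂ (h i) w1)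
    (hroot : HH N h w1 Z0 = 0) (hsimple : HD N h w1 Z0 ≠ 0) :
    ∃ (ε δ : ℝ) (Zs : ℂ → ℂ), 0 < ε ∧ 0 < δ ∧ DifferentiableOn ℂ Zs (ball w1 δ) ∧
      ∀ w ∈ ball w1 δ, ∀ Z : ℂ, ‖Z - Z0‖ < ε → HH N h w Z = 0 → Z = Zs w := by
  have han := HH_analytic N h w1 Z0 hh
  obtain ⟨L, hL⟩ : ∃ L : ℂ × ℂ →L[ℂ] ℂ,
      HasFDerivAt (fun p : ℂ × ℂ => HH N h p.1 p.2) L (w1, Z0) :=
    ⟨_, han.differentiableAt.hasFDerivAt⟩
  have hLB : L (0, 1) = HD N h w1 Z0 := by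
    have h1 : HasDerivAt (fun Z : ℂ => ((w1, Z) : ℂ × ℂ)) (0, 1) Z0 :=
      (hasDerivAt_const Z0 w1).prodMk (hasDerivAt_id Z0)
    have h2 : HasDerivAt (fun Z : ℂ => HH N h w1 Z) (L (0, 1)) Z0 :=
      HasFDerivAt.comp_hasDerivAt (f := fun Z : ℂ => ((w1, Z) : ℂ × ℂ))
        (l := fun p : ℂ × ℂ => HH N h p.1 p.2) Z0 hL h1
    exact h2.unique (HH_deriv N h w1 Z0)
  have hLsplit : ∀ a b : ℂ, L (a, b) = L (a, 0) + b * L (0, 1) := by
    intro a b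
    have e : ((a, b) : ℂ × ℂ) = (a, 0) + b • (0, 1) := by
      ext <;> simp
    rw [e, map_add, map_smul, smul_eq_mul]
  obtain ⟨B, hB⟩ : ∃ B : ℂ, B = L (0, 1) := ⟨_, rfl⟩
  have hB0 : B ≠ 0 := by rw [hB, hLB]; exact hsimple
  obtain ⟨Φ', hΦ'⟩ : ∃ Φ' : (ℂ × ℂ) ≃L[ℂ] (ℂ × ℂ),
      (Φ' : ℂ × ℂ →L[ℂ] ℂ × ℂ) = (ContinuousLinearMap.fst ℂ ℂ ℂ).prod L := by
    refine ⟨ContinuousLinearEquiv.equivOfInverse ((ContinuousLinearMap.fst ℂ ℂ ℂ).prod L)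
      ((ContinuousLinearMap.fst ℂ ℂ ℂ).prod (B⁻¹ • (ContinuousLinearMap.snd ℂ ℂ ℂ -
        L.comp ((ContinuousLinearMap.inl ℂ ℂ ℂ).comp (ContinuousLinearMap.fst ℂ ℂ ℂ))))) ?_ ?_, rfl⟩
    · rintro ⟨a, b⟩
      simp only [ContinuousLinearMap.prod_apply, ContinuousLinearMap.coe_fst', smul_eq_mul,
        smul_apply, sub_apply,
        ContinuousLinearMap.coe_snd', ContinuousLinearMap.comp_apply,
        ContinuousLinearMap.inl_apply]
      rw [hLsplit a b, ← hB, add_sub_cancel_left, mul_comm b B, inv_mul_cancel_left₀ hB0]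
    · rintro ⟨a, b⟩
      simp only [ContinuousLinearMap.prod_apply, ContinuousLinearMap.coe_fst', smul_eq_mul,
        smul_apply, sub_apply,
        ContinuousLinearMap.coe_snd', ContinuousLinearMap.comp_apply,
        ContinuousLinearMap.inl_apply]
      rw [hLsplit a _, ← hB]
      congr 1
      field_simp
      ring
  have hcd : ContDiffAt ℂ 1 (fun p : ℂ × ℂ => (p.1, HH N h p.1 p.2)) (w1, Z0) :=
    contDiffAt_fst.prodMk han.contDiffAt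
  have hfd : HasFDerivAt (fun p : ℂ × ℂ => (p.1, HH N h p.1 p.2))
      (Φ' : ℂ × ℂ →L[ℂ] ℂ × ℂ) (w1, Z0) := by
    rw [hΦ']
    exact hasFDerivAt_fst.prodMk hL
  obtain ⟨e, he⟩ : ∃ e : OpenPartialHomeomorph (ℂ × ℂ) (ℂ × ℂ),
      e = hcd.toOpenPartialHomeomorph _ hfd one_ne_zero := ⟨_, rfl⟩
  have hesrc : (w1, Z0) ∈ e.source := by
    rw [he]
    exact hcd.mem_toOpenPartialHomeomorph_source hfd one_ne_zero
  have hefun : ∀ p : ℂ × ℂ, e p = (p.1, HH N h p.1 p.2) := fun p => by rw [he]; rfl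
  have hsymm : ContDiffAt ℂ 1 e.symm (w1, 0) := by
    have h1 := hcd.to_localInverse hfd one_ne_zero
    have h2 : (w1, HH N h w1 Z0) = (w1, (0 : ℂ)) := by rw [hroot]
    rw [he]
    have h3 : ContDiffAt ℂ 1 (hcd.localInverse hfd one_ne_zero) (w1, HH N h w1 Z0) := h1
    rw [h2] at h3
    exact h3
  have hsd : ∀ᶠ q in 𝓝 (w1, (0 : ℂ)), DifferentiableAt ℂ e.symm q := by
    filter_upwards [hsymm.eventually (by simp)] with q hq
    exact hq.differentiableAt one_ne_zero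
  obtain ⟨δ1, hδ1, hδ1b⟩ := Metric.eventually_nhds_iff_ball.1 hsd
  obtain ⟨δ2, hδ2, hδ2b⟩ := Metric.isOpen_iff.1 e.open_source (w1, Z0) hesrc
  refine ⟨δ2, min δ1 δ2, fun w => (e.symm (w, 0)).2, hδ2, lt_min hδ1 hδ2, ?_, ?_⟩
  · intro w hw
    apply DifferentiableAt.differentiableWithinAt
    have h1 : (w, (0 : ℂ)) ∈ ball (w1, (0 : ℂ)) δ1 := by
      rw [mem_ball, Prod.dist_eq, max_lt_iff]
      exact ⟨lt_of_lt_of_le hw (min_le_left _ _), by simpa using hδ1⟩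
    have h2 := hδ1b _ h1
    have h3 : DifferentiableAt ℂ (fun w : ℂ => ((w, 0) : ℂ × ℂ)) w :=
      differentiableAt_id.prodMk (differentiableAt_const _)
    have h4 : DifferentiableAt ℂ (fun w : ℂ => e.symm (w, 0)) w :=
      DifferentiableAt.comp (f := fun w : ℂ => ((w, 0) : ℂ × ℂ)) w h2 h3
    exact h4.snd
  · intro w hw Z hZ hZ0
    have h1 : (w, Z) ∈ e.source := by
      apply hδ2b
      rw [mem_ball, Prod.dist_eq, max_lt_iff]
      exact ⟨lt_of_lt_of_le hw (min_le_right _ _), by rwa [dist_eq_norm]⟩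
    have h2 := e.left_inv h1
    rw [hefun, hZ0] at h2
    show Z = (e.symm (w, 0)).2
    rw [h2]

theorem fin_pos {ι : Type*} (s : Finset ι) (f : ι → ℝ) (hf : ∀ x ∈ s, 0 < f x) :
    ∃ m : ℝ, 0 < m ∧ ∀ x ∈ s, m ≤ f x := by
  classical
  induction s using Finset.induction_on with
  | empty => exact ⟨1, one_pos, fun x hx => absurd hx (Finset.notMem_empty x)⟩
  | insert a s ha ih =>
    obtain ⟨m, hm, hms⟩ := ih fun x hx => hf x (Finset.mem_insert_of_mem hx)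
    refine ⟨min m (f a), lt_min hm (hf a (Finset.mem_insert_self a s)), fun x hx => ?_⟩
    rcases Finset.mem_insert.1 hx with h | h
    · rw [h]
      exact min_le_right _ _
    · exact (min_le_left _ _).trans (hms x h)

/-- the finite set of roots -/
theorem roots_fin (N : ℕ) (h : ℕ → ℂ → ℂ) (w1 : ℂ) (hR : ∃ Z, HH N h w1 Z ≠ 0) :
    ∃ s : Finset ℂ, ∀ Z, HH N h w1 Z = 0 ↔ Z ∈ s := by
  classical
  obtain ⟨p, hp⟩ : ∃ p : Polynomial ℂ,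
      p = ∑ i ∈ Finset.range (N + 1), Polynomial.C (h i w1) * Polynomial.X ^ i := ⟨_, rfl⟩
  have hev : ∀ Z, p.eval Z = HH N h w1 Z := by
    intro Z
    rw [hp]
    unfold HH
    simp [Polynomial.eval_finsetSum]
  have hp0 : p ≠ 0 := by
    rintro h0
    obtain ⟨Z, hZ⟩ := hR
    rw [← hev, h0, Polynomial.eval_zero] at hZ
    exact hZ rfl
  refine ⟨p.roots.toFinset, fun Z => ?_⟩
  rw [Multiset.mem_toFinset, Polynomial.mem_roots hp0, Polynomial.IsRoot.def, hev]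

/-- a function whose values are roots of an equation with simple roots only at `w1` either tends to
`0` at `w1` or is meromorphic at `w1` -/
theorem dichotomy (N : ℕ) (h : ℕ → ℂ → ℂ) (w1 c : ℂ) (ρ : ℝ) (y : ℂ → ℂ)
    (hh : ∀ i ≤ N, AnalyticAt ℂ (h i) w1) (hR : ∃ Z, HH N h w1 Z ≠ 0)
    (hS : ∀ Z, HH N h w1 Z = 0 → HD N h w1 Z ≠ 0) (hρ : 0 < ρ) (hw1 : w1 ∈ sphere c ρ)
    (hy : ContinuousOn y (ball c ρ))
    (hrel : ∀ᶠ w in 𝓝 w1, w ∈ ball c ρ → y w ≠ 0 → HH N h w (1 / y w) = 0) :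
    (∀ η : ℝ, 0 < η → ∃ δ : ℝ, 0 < δ ∧ ∀ w ∈ ball c ρ, ‖w - w1‖ < δ → ‖y w‖ < η) ∨
    ∃ (δ : ℝ) (Zs : ℂ → ℂ), 0 < δ ∧ DifferentiableOn ℂ Zs (ball w1 δ) ∧
      (∀ w ∈ ball w1 δ, w ≠ w1 → Zs w ≠ 0) ∧
      ∀ w ∈ ball c ρ ∩ ball w1 δ, y w ≠ 0 ∧ y w = 1 / Zs w := by
  by_cases hA : ∀ η : ℝ, 0 < η → ∃ δ : ℝ, 0 < δ ∧ ∀ w ∈ ball c ρ, ‖w - w1‖ < δ → ‖y w‖ < η
  · exact Or.inl hA
  right
  push Not at hA
  obtain ⟨η, hη, hfreq⟩ := hA
  obtain ⟨s, hs⟩ := roots_fin N h w1 hR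
  have hsr : ∀ Z ∈ s, ∃ (ε δ : ℝ) (Zs : ℂ → ℂ), 0 < ε ∧ 0 < δ ∧
      DifferentiableOn ℂ Zs (ball w1 δ) ∧
      ∀ w ∈ ball w1 δ, ∀ Z' : ℂ, ‖Z' - Z‖ < ε → HH N h w Z' = 0 → Z' = Zs w := by
    intro Z hZ
    have hZ0 := (hs Z).2 hZ
    exact simple_root N h w1 Z hh hZ0 (hS Z hZ0)
  choose! εf δf Zf hε hδ hZd hZu using hsr
  obtain ⟨ε1, hε1, hε1s⟩ := fin_pos s εf hε
  obtain ⟨δ1, hδ1, hδ1s⟩ := fin_pos s δf hδ
  obtain ⟨σ, hσ, hσs⟩ := fin_pos (s ×ˢ s)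
    (fun p : ℂ × ℂ => if p.1 = p.2 then 1 else ‖p.1 - p.2‖) (fun p _ => by
      split_ifs with hpp
      · exact one_pos
      · exact norm_pos_iff.2 (sub_ne_zero.2 hpp))
  obtain ⟨κ, hκ, hκs⟩ := fin_pos s (fun Z => 1 / (‖Z‖ + 1)) (fun Z _ => by positivity)
  obtain ⟨ε0, hε0, hε01, hε0ε, hε0σ⟩ : ∃ ε0 : ℝ, 0 < ε0 ∧ ε0 ≤ 1 ∧ ε0 ≤ ε1 ∧ 3 * ε0 ≤ σ := by
    refine ⟨min 1 (min ε1 (σ / 3)), lt_min one_pos (lt_min hε1 (by linarith)), min_le_left _ _,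
      (min_le_right _ _).trans (min_le_left _ _), ?_⟩
    have := (min_le_right 1 (min ε1 (σ / 3))).trans (min_le_right _ _)
    linarith
  obtain ⟨K, hK1, hKη, hKs⟩ : ∃ K : ℝ, 1 ≤ K ∧ 1 ≤ K * η ∧ ∀ Z ∈ s, ‖Z‖ + 1 ≤ K := by
    refine ⟨max 1 (max (1 / η) (1 / κ)), le_max_left _ _, ?_, fun Z hZ => ?_⟩
    · have h1 : 1 / η ≤ max 1 (max (1 / η) (1 / κ)) :=
        (le_max_left _ _).trans (le_max_right _ _)
      have h2 := mul_le_mul_of_nonneg_right h1 hη.le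
      rwa [one_div_mul_cancel hη.ne'] at h2
    · have h1 : 1 / κ ≤ max 1 (max (1 / η) (1 / κ)) :=
        (le_max_right _ _).trans (le_max_right _ _)
      refine le_trans ?_ h1
      rw [le_div_iff₀ hκ]
      have h2 := mul_le_mul_of_nonneg_left (hκs Z hZ) (by positivity : 0 ≤ ‖Z‖ + 1)
      rwa [mul_one_div_cancel (by positivity)] at h2
  -- roots near `w1` are close to the roots at `w1`
  have hcl : ∀ᶠ w in 𝓝 w1, ∀ Z ∈ {Z : ℂ | ‖Z‖ ≤ K ∧ ∀ Z' ∈ s, ε0 ≤ ‖Z - Z'‖}, HH N h w Z ≠ 0 := by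
    have hcomp : IsCompact {Z : ℂ | ‖Z‖ ≤ K ∧ ∀ Z' ∈ s, ε0 ≤ ‖Z - Z'‖} := by
      refine (isCompact_closedBall (0 : ℂ) K).of_isClosed_subset ?_ fun Z hZ => by
        simpa using hZ.1
      refine IsClosed.inter (isClosed_le continuous_norm continuous_const) ?_
      have : {Z : ℂ | ∀ Z' ∈ s, ε0 ≤ ‖Z - Z'‖} = ⋂ Z' ∈ s, {Z : ℂ | ε0 ≤ ‖Z - Z'‖} := by
        ext Z
        simp
      have h2 : IsClosed {Z : ℂ | ∀ Z' ∈ s, ε0 ≤ ‖Z - Z'‖} := by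
        rw [this]
        exact isClosed_biInter fun Z' _ => isClosed_le continuous_const (by fun_prop)
      exact h2
    refine hcomp.eventually_forall_of_forall_eventually (P := fun w Z => HH N h w Z ≠ 0) ?_
    intro Z hZ
    have h1 : HH N h w1 Z ≠ 0 := by
      intro h0
      have h2 := hZ.2 Z ((hs Z).1 h0)
      rw [sub_self, norm_zero] at h2
      linarith
    exact (HH_analytic N h w1 Z hh).continuousAt.eventually_ne h1
  obtain ⟨δ2, hδ2, hδ2b⟩ := Metric.eventually_nhds_iff_ball.1 (hcl.and hrel)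
  obtain ⟨δ, hδp, hδd⟩ : ∃ δ : ℝ, 0 < δ ∧ δ = min δ1 δ2 := ⟨_, lt_min hδ1 hδ2, rfl⟩
  have hdl1 : δ ≤ δ1 := by rw [hδd]; exact min_le_left _ _
  have hdl2 : δ ≤ δ2 := by rw [hδd]; exact min_le_right _ _
  -- the alternative at each point
  have halt : ∀ w ∈ ball c ρ ∩ ball w1 δ, 1 ≤ K * ‖y w‖ → y w ≠ 0 ∧ HH N h w (1 / y w) = 0 ∧
      ∃ Z' ∈ s, ‖1 / y w - Z'‖ < ε0 := by
    intro w hw hKy
    have hy0 : y w ≠ 0 := by
      intro h0
      rw [h0, norm_zero, mul_zero] at hKy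
      linarith
    have hyn : 0 < ‖y w‖ := norm_pos_iff.2 hy0
    obtain ⟨h1, h2⟩ := hδ2b w (ball_subset_ball hdl2 hw.2)
    have h3 := h2 hw.1 hy0
    refine ⟨hy0, h3, ?_⟩
    by_contra hcon
    push Not at hcon
    refine h1 (1 / y w) ⟨?_, hcon⟩ h3
    rw [norm_div, norm_one, div_le_iff₀ hyn]
    exact hKy
  obtain ⟨w0, hw0, hw0d, hw0η⟩ := hfreq δ hδp
  have hw0m : w0 ∈ ball c ρ ∩ ball w1 δ := ⟨hw0, mem_ball_iff_norm.2 hw0d⟩
  obtain ⟨hy0, -, Z0, hZ0, hZ0c⟩ := halt w0 hw0m (hKη.trans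
    (mul_le_mul_of_nonneg_left hw0η (by linarith)))
  have hopD : IsOpen (ball c ρ ∩ ball w1 δ) := isOpen_ball.inter isOpen_ball
  have hpre : IsPreconnected (ball c ρ ∩ ball w1 δ) :=
    ((convex_ball c ρ).inter (convex_ball w1 δ)).isPreconnected
  have hyD : ContinuousOn y (ball c ρ ∩ ball w1 δ) := hy.mono inter_subset_left
  have hc1 : ContinuousOn (fun w => ‖1 - Z0 * y w‖) (ball c ρ ∩ ball w1 δ) :=
    (continuousOn_const.sub (continuousOn_const.mul hyD)).norm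
  have hc2 : ContinuousOn (fun w => ε0 * ‖y w‖) (ball c ρ ∩ ball w1 δ) :=
    continuousOn_const.mul hyD.norm
  have hUo : IsOpen ((ball c ρ ∩ ball w1 δ) ∩ {w | ‖1 - Z0 * y w‖ < ε0 * ‖y w‖}) := by
    have := (hc1.prodMk hc2).isOpen_inter_preimage hopD (isOpen_lt continuous_fst continuous_snd)
    exact this
  have hVo : IsOpen ((ball c ρ ∩ ball w1 δ) ∩ {w | ε0 * ‖y w‖ < ‖1 - Z0 * y w‖}) := by
    have := (hc1.prodMk hc2).isOpen_inter_preimage hopD (isOpen_lt continuous_snd continuous_fst)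
    exact this
  have hmul : ∀ w Z : ℂ, y w ≠ 0 → ‖1 - Z * y w‖ = ‖1 / y w - Z‖ * ‖y w‖ := by
    intro w Z h0
    rw [← norm_mul, sub_mul, one_div, inv_mul_cancel₀ h0]
  have hcover : ball c ρ ∩ ball w1 δ ⊆
      ((ball c ρ ∩ ball w1 δ) ∩ {w | ‖1 - Z0 * y w‖ < ε0 * ‖y w‖}) ∪
      ((ball c ρ ∩ ball w1 δ) ∩ {w | ε0 * ‖y w‖ < ‖1 - Z0 * y w‖}) := by
    intro w hw
    rcases lt_or_ge (K * ‖y w‖) 1 with hlt | hge
    · right
      refine ⟨hw, ?_⟩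
      show ε0 * ‖y w‖ < ‖1 - Z0 * y w‖
      have h1 : 1 - ‖Z0‖ * ‖y w‖ ≤ ‖1 - Z0 * y w‖ := by
        have := norm_sub_norm_le (1 : ℂ) (Z0 * y w)
        rwa [norm_one, norm_mul] at this
      have h2 : (‖Z0‖ + 1) * ‖y w‖ ≤ K * ‖y w‖ :=
        mul_le_mul_of_nonneg_right (hKs Z0 hZ0) (norm_nonneg _)
      have h3 : ε0 * ‖y w‖ ≤ 1 * ‖y w‖ := mul_le_mul_of_nonneg_right hε01 (norm_nonneg _)
      linarith
    · obtain ⟨h1, -, Z', hZ', hZ'c⟩ := halt w hw hge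
      have hyn : 0 < ‖y w‖ := norm_pos_iff.2 h1
      rcases eq_or_ne Z' Z0 with heq | hne
      · left
        refine ⟨hw, ?_⟩
        show ‖1 - Z0 * y w‖ < ε0 * ‖y w‖
        rw [hmul w Z0 h1]
        rw [heq] at hZ'c
        exact mul_lt_mul_of_pos_right hZ'c hyn
      · right
        refine ⟨hw, ?_⟩
        show ε0 * ‖y w‖ < ‖1 - Z0 * y w‖
        rw [hmul w Z0 h1]
        refine mul_lt_mul_of_pos_right ?_ hyn
        have h2 := hσs (Z0, Z') (Finset.mk_mem_product hZ0 hZ')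
        simp only [if_neg (Ne.symm hne)] at h2
        have h3 : ‖Z0 - Z'‖ ≤ ‖1 / y w - Z'‖ + ‖1 / y w - Z0‖ := by
          have := norm_add_le (Z0 - 1 / y w) (1 / y w - Z')
          rw [sub_add_sub_cancel, norm_sub_rev Z0 (1 / y w)] at this
          linarith
        linarith
  have hw0U : ((ball c ρ ∩ ball w1 δ) ∩
      ((ball c ρ ∩ ball w1 δ) ∩ {w | ‖1 - Z0 * y w‖ < ε0 * ‖y w‖})).Nonempty := by
    refine ⟨w0, hw0m, hw0m, ?_⟩
    show ‖1 - Z0 * y w0‖ < ε0 * ‖y w0‖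
    rw [hmul w0 Z0 hy0]
    exact mul_lt_mul_of_pos_right hZ0c (norm_pos_iff.2 hy0)
  have hdisj : Disjoint ((ball c ρ ∩ ball w1 δ) ∩ {w | ‖1 - Z0 * y w‖ < ε0 * ‖y w‖})
      ((ball c ρ ∩ ball w1 δ) ∩ {w | ε0 * ‖y w‖ < ‖1 - Z0 * y w‖}) := by
    rw [Set.disjoint_left]
    rintro w ⟨-, h1⟩ ⟨-, h2⟩
    exact lt_asymm (show ‖1 - Z0 * y w‖ < ε0 * ‖y w‖ from h1) h2
  have hall := IsPreconnected.subset_left_of_subset_union hUo hVo hdisj hcover hw0U hpre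
  have hval : ∀ w ∈ ball c ρ ∩ ball w1 δ, y w ≠ 0 ∧ y w = 1 / Zf Z0 w := by
    intro w hw
    have h1 : ‖1 - Z0 * y w‖ < ε0 * ‖y w‖ := (hall hw).2
    have hy1 : y w ≠ 0 := by
      intro h0
      rw [h0, norm_zero, mul_zero, mul_zero] at h1
      exact absurd h1 (not_lt.2 (norm_nonneg _))
    have hyn : 0 < ‖y w‖ := norm_pos_iff.2 hy1
    rw [hmul w Z0 hy1] at h1
    have h2 := lt_of_mul_lt_mul_right h1 hyn.le
    have h3 := (hδ2b w (ball_subset_ball hdl2 hw.2)).2 hw.1 hy1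
    have h4 := hZu Z0 hZ0 w (ball_subset_ball (hdl1.trans (hδ1s Z0 hZ0)) hw.2) (1 / y w)
      (h2.trans_le (hε0ε.trans (hε1s Z0 hZ0))) h3
    refine ⟨hy1, ?_⟩
    rw [← h4, one_div_one_div]
  -- the zeros of the root function
  have hZan : AnalyticAt ℂ (Zf Z0) w1 :=
    (hZd Z0 hZ0).analyticAt (isOpen_ball.mem_nhds (mem_ball_self (hδ Z0 hZ0)))
  have hclos : w1 ∈ closure (ball c ρ) := by
    rw [closure_ball c hρ.ne']
    exact sphere_subset_closedBall hw1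
  rcases hZan.eventually_eq_zero_or_eventually_ne_zero with hz | hz
  · exfalso
    obtain ⟨δ3, hδ3, hδ3b⟩ := Metric.eventually_nhds_iff_ball.1 hz
    obtain ⟨w, hwm, hwd⟩ := Metric.mem_closure_iff.1 hclos (min δ δ3) (lt_min hδp hδ3)
    rw [dist_comm] at hwd
    have h1 := hδ3b w (mem_ball.2 (lt_of_lt_of_le hwd (min_le_right _ _)))
    have h2 := hval w ⟨hwm, mem_ball.2 (lt_of_lt_of_le hwd (min_le_left _ _))⟩
    rw [h1, div_zero] at h2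
    exact h2.1 h2.2
  · rw [eventually_nhdsWithin_iff] at hz
    obtain ⟨δ3, hδ3, hδ3b⟩ := Metric.eventually_nhds_iff_ball.1 hz
    refine ⟨min δ δ3, Zf Z0, lt_min hδp hδ3, ?_, ?_, ?_⟩
    · exact (hZd Z0 hZ0).mono (ball_subset_ball ((min_le_left _ _).trans
        (hdl1.trans (hδ1s Z0 hZ0))))
    · intro w hw hne
      exact hδ3b w (ball_subset_ball (min_le_right _ _) hw) hne
    · intro w hw
      exact hval w ⟨hw.1, ball_subset_ball (min_le_left _ _) hw.2⟩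

end Pool.Agent.P8H73.SF
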