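import Pool.Agent.P8H73.SF.Step

/-!
Schiffer's problem for domains whose boundary satisfies a polynomial equation in `conj z` with
holomorphic coefficients.
-/

set_option autoImplicit false

open MeasureTheory Complex Metric Set Filter Topology ComplexConjugate
open Pool.Agent.Results.MP_83fd13_an.BranchSingularities (Solvable Branch BranchesBlowUp
  NoFiniteIsolatedSingularity)

namespace Pool.Agent.P8H73.SF

theorem main_alg (φ : ℂ → ℂ) (r lam : ℝ) (hr : 1 < r) (hφ : DifferentiableOn ℂ φ (ball 0 r))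
    (hinj : InjOn φ (ball 0 r)) (hlam : 0 < lam) (hS : Solvable (φ '' ball 0 1) lam)
    (V : Set ℂ) (hV : IsOpen V) (hcl : φ '' closedBall 0 1 ⊆ V) (N : ℕ) (a : ℕ → ℂ → ℂ)
    (ha : ∀ k ≤ N, DifferentiableOn ℂ (a k) V) (hne : ∃ z ∈ φ '' ball 0 1, a N z ≠ 0)
    (hrel : ∀ z ∈ φ '' sphere 0 1, ∑ k ∈ Finset.range (N + 1), a k z * conj z ^ k = 0)
    (hbad : ∀ P ∈ φ '' ball 0 1, ∀ P' ∈ φ '' ball 0 1, Bad N a P → Bad N a P' → P = P') :
    ∃ (p : ℂ) (r0 : ℝ), 0 < r0 ∧ φ '' ball 0 1 = ball p r0 := by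
  by_contra hnd
  -- the centre
  obtain ⟨u0, hu0, hu0b⟩ : ∃ u0 : ℂ, ‖u0‖ < 1 ∧
      ∀ P ∈ φ '' ball 0 1, Bad N a P → P = φ u0 := by
    by_cases h : ∃ P ∈ φ '' ball 0 1, Bad N a P
    · obtain ⟨P, ⟨u, hu, rfl⟩, hP⟩ := h
      exact ⟨u, mem_ball_zero_iff.1 hu, fun P' hP' hb => hbad P' hP' (φ u) ⟨u, hu, rfl⟩ hb hP⟩
    · refine ⟨0, by rw [norm_zero]; exact one_pos, fun P' hP' hb => absurd ⟨P', hP', hb⟩ h⟩
  obtain ⟨φ1, r1, hr1, hφ1, hinj1, him, hims, h0⟩ := mob φ r hr hφ hinj u0 hu0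
  have himc : φ1 '' closedBall 0 1 = φ '' closedBall 0 1 := by
    rw [← ball_union_sphere, image_union, image_union, him, hims]
  rw [← him] at hS hnd hne hbad hu0b
  rw [← hims] at hrel
  rw [← himc] at hcl
  obtain ⟨hBB, -, h3⟩ := Pool.Agent.Results.MP_83fd13_an.BranchSingularities.result φ1 r1 hr1 hφ1
    hinj1 lam hlam hS
  obtain ⟨hNI, -, -⟩ := h3 hnd
  obtain ⟨ψ, hψ, hψφ⟩ := entire_of φ1 r1 (by linarith) hφ1 (by
    intro R ψ hrR hψ hψφ w1 hw1
    refine ext_step φ1 r1 lam hr1 hφ1 hinj1 hlam hBB hNI V hV hcl N a ha hne hrel R ψ hrR hψ hψφ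
      w1 hw1 ?_
    intro hB
    have hw1n : ‖w1‖ = R := by simpa using hw1
    have hR1 : 1 < ‖w1‖ := by rw [hw1n]; linarith
    have hw10 : w1 ≠ 0 := by
      rintro rfl
      rw [norm_zero] at hR1
      linarith
    have hPb : 1 / conj w1 ∈ ball (0 : ℂ) 1 := by
      rw [mem_ball_zero_iff, norm_div, norm_one, RCLike.norm_conj, div_lt_one (by linarith)]
      exact hR1
    have h1 := hu0b _ ⟨_, hPb, rfl⟩ hB
    rw [← h0] at h1
    have h2 := hinj1 (ball_subset_ball hr1.le hPb) (mem_ball_self (by linarith)) h1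
    exact (div_ne_zero one_ne_zero ((map_ne_zero _).2 hw10)) h2)
  have himψ : ψ '' ball 0 1 = φ1 '' ball 0 1 :=
    image_congr fun x hx => hψφ (ball_subset_ball hr1.le hx)
  obtain ⟨-, -, h4⟩ := Pool.Agent.Results.MP_83fd13_an.BranchSingularities.result ψ r1 hr1
    hψ.differentiableOn (hinj1.congr hψφ.symm) lam hlam (by rw [himψ]; exact hS)
  rw [himψ] at h4
  exact (h4 hnd).2.2 fun z => (hψ.analyticAt z).meromorphicAt

/-- at a bad point the factor is at least quadratic -/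
theorem bad_double (N : ℕ) (a : ℕ → ℂ → ℂ) (ζ : ℂ) (ha : ∀ k ≤ N, AnalyticAt ℂ (a k) ζ)
    (h : Bad N a ζ) : ∃ G : ℂ → ℂ, AnalyticAt ℂ G ζ ∧ ∀ᶠ z in 𝓝 ζ, a N z = (z - ζ) ^ 2 * G z := by
  obtain ⟨e, g, hfac, ⟨Z1, hZ1⟩, Z0, hZ0, hZ0d⟩ := h
  -- coefficients above `e` vanish
  have hvan : ∀ i ≤ N, e < i → g i ζ = 0 := by
    intro i hi hei
    obtain ⟨h1, h2⟩ := hfac i hi
    have h3 : ∀ᶠ z in 𝓝[≠] ζ, g i z = a (N - i) z * (z - ζ) ^ (i - e) := by
      filter_upwards [h2.filter_mono nhdsWithin_le_nhds, self_mem_nhdsWithin] with z hz hzne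
      have hne : (z - ζ) ^ e ≠ 0 := pow_ne_zero _ (sub_ne_zero.2 hzne)
      apply mul_left_cancel₀ hne
      rw [← hz]
      have : (z - ζ) ^ i = (z - ζ) ^ e * (z - ζ) ^ (i - e) := by
        rw [← pow_add]
        congr 1
        omega
      rw [this]
      ring
    have h4 : Tendsto (g i) (𝓝[≠] ζ) (𝓝 (g i ζ)) :=
      h1.continuousAt.tendsto.mono_left nhdsWithin_le_nhds
    have h5 : Tendsto (fun z => a (N - i) z * (z - ζ) ^ (i - e)) (𝓝[≠] ζ) (𝓝 0) := by
      have h6 : ContinuousAt (fun z => a (N - i) z * (z - ζ) ^ (i - e)) ζ :=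
        (ha (N - i) (Nat.sub_le N i)).continuousAt.mul (by fun_prop)
      have h7 := h6.tendsto
      simp only [sub_self] at h7
      rw [zero_pow (by omega), mul_zero] at h7
      exact h7.mono_left nhdsWithin_le_nhds
    exact tendsto_nhds_unique (h4.congr' h3) h5
  have he : 2 ≤ e := by
    by_contra hlt
    push Not at hlt
    apply hZ1
    -- only the coefficients 0 and 1 survive
    have hred : ∀ Z, HH N g ζ Z = g 0 ζ + (if 1 ≤ N then g 1 ζ * Z else 0) := by
      intro Z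
      unfold HH
      rcases Nat.eq_zero_or_pos N with hN | hN
      · subst hN
        simp
      · have hN' : 1 ≤ N := hN
        rw [if_pos hN']
        obtain ⟨M, rfl⟩ : ∃ M, N = M + 1 := ⟨N - 1, by omega⟩
        rw [Finset.sum_range_succ', Finset.sum_range_succ']
        have hz : ∑ k ∈ Finset.range M, g (k + 1 + 1) ζ * Z ^ (k + 1 + 1) = 0 := by
          refine Finset.sum_eq_zero fun k hk => ?_
          have := Finset.mem_range.1 hk
          rw [hvan (k + 1 + 1) (by omega) (by omega), zero_mul]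
        rw [hz]
        ring
    have hredD : HD N g ζ Z0 = if 1 ≤ N then g 1 ζ else 0 := by
      unfold HD
      rcases Nat.eq_zero_or_pos N with hN | hN
      · subst hN
        simp
      · have hN' : 1 ≤ N := hN
        rw [if_pos hN']
        obtain ⟨M, rfl⟩ : ∃ M, N = M + 1 := ⟨N - 1, by omega⟩
        rw [Finset.sum_range_succ', Finset.sum_range_succ']
        have hz : ∑ k ∈ Finset.range M, g (k + 1 + 1) ζ *
            (((k + 1 + 1 : ℕ) : ℂ) * Z0 ^ (k + 1 + 1 - 1)) = 0 := by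
          refine Finset.sum_eq_zero fun k hk => ?_
          have := Finset.mem_range.1 hk
          rw [hvan (k + 1 + 1) (by omega) (by omega), zero_mul]
        rw [hz]
        simp
    rw [hredD] at hZ0d
    rw [hred] at hZ0 ⊢
    split_ifs at hZ0 hZ0d ⊢ with h1
    · rw [hZ0d, zero_mul, add_zero] at hZ0
      rw [hZ0, hZ0d]
      ring
    · rw [add_zero] at hZ0
      rw [hZ0]
      ring
  obtain ⟨h1, h2⟩ := hfac 0 (Nat.zero_le N)
  refine ⟨fun z => (z - ζ) ^ (e - 2) * g 0 z,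
    ((analyticAt_id.sub analyticAt_const).pow _).mul h1, ?_⟩
  filter_upwards [h2] with z hz
  rw [Nat.sub_zero, pow_zero, mul_one] at hz
  rw [hz, ← mul_assoc, ← pow_add]
  congr 2
  omega

/-- a polynomial of degree at most three has at most one multiple zero -/
theorem poly_double (q : Polynomial ℂ) (hq : q ≠ 0) (hd : q.natDegree ≤ 3) (x y : ℂ)
    (hx : ∃ G : ℂ → ℂ, AnalyticAt ℂ G x ∧ ∀ᶠ z in 𝓝 x, q.eval z = (z - x) ^ 2 * G z)
    (hy : ∃ G : ℂ → ℂ, AnalyticAt ℂ G y ∧ ∀ᶠ z in 𝓝 y, q.eval z = (z - y) ^ 2 * G z) :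
    x = y := by
  by_contra hxy
  have key : ∀ t : ℂ, (∃ G : ℂ → ℂ, AnalyticAt ℂ G t ∧
      ∀ᶠ z in 𝓝 t, q.eval z = (z - t) ^ 2 * G z) → (Polynomial.X - Polynomial.C t) ^ 2 ∣ q := by
    rintro t ⟨G, hG, hGe⟩
    have h1 : q.IsRoot t := by
      have := hGe.self_of_nhds
      rw [Polynomial.IsRoot.def, this, sub_self]
      ring
    have h2 : q.derivative.IsRoot t := by
      rw [Polynomial.IsRoot.def]
      have h3 : HasDerivAt (fun z => q.eval z) (q.derivative.eval t) t := q.hasDerivAt t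
      have h4 : HasDerivAt (fun z => (z - t) ^ 2 * G z)
          (2 * (t - t) ^ (2 - 1) * 1 * G t + (t - t) ^ 2 * deriv G t) t := by
        have h5 : HasDerivAt (fun z : ℂ => (z - t) ^ 2) (((2 : ℕ) : ℂ) * (t - t) ^ (2 - 1) * 1) t :=
          ((hasDerivAt_id t).sub_const t).pow 2
        have h6 := h5.fun_mul hG.differentiableAt.hasDerivAt
        simpa using h6
      have h7 := h3.congr_of_eventuallyEq (EventuallyEq.symm hGe)
      rw [h7.unique h4]
      simp
    have h8 := (Polynomial.one_lt_rootMultiplicity_iff_isRoot hq).2 ⟨h1, h2⟩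
    exact (pow_dvd_pow _ h8).trans (Polynomial.pow_rootMultiplicity_dvd q t)
  have hcop : IsCoprime ((Polynomial.X - Polynomial.C x) ^ 2) ((Polynomial.X - Polynomial.C y) ^ 2) :=
    (Polynomial.isCoprime_X_sub_C_of_isUnit_sub (by
      rw [isUnit_iff_ne_zero]
      exact sub_ne_zero.2 hxy)).pow
  have hdvd := hcop.mul_dvd (key x hx) (key y hy)
  have h9 := Polynomial.natDegree_le_of_dvd hdvd hq
  rw [Polynomial.natDegree_mul (pow_ne_zero _ (Polynomial.X_sub_C_ne_zero x))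
    (pow_ne_zero _ (Polynomial.X_sub_C_ne_zero y)), Polynomial.natDegree_pow,
    Polynomial.natDegree_pow, Polynomial.natDegree_X_sub_C, Polynomial.natDegree_X_sub_C] at h9
  omega

/-- one half of the corollary for algebraic curves -/
theorem main_curve0 (φ : ℂ → ℂ) (r lam : ℝ) (hr : 1 < r) (hφ : DifferentiableOn ℂ φ (ball 0 r))
    (hinj : InjOn φ (ball 0 r)) (hlam : 0 < lam) (hS : Solvable (φ '' ball 0 1) lam)
    (d : ℕ) (c : ℕ → ℕ → ℂ) (hc : ∀ j k, d < j + k → c j k = 0)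
    (htop : ∃ j k, j + k = d ∧ c j k ≠ 0 ∧ j ≤ 3)
    (hvan : ∀ z ∈ φ '' sphere 0 1, ∑ j ∈ Finset.range (d + 1), ∑ k ∈ Finset.range (d + 1),
      c j k * z ^ j * conj z ^ k = 0) :
    ∃ (p : ℂ) (r0 : ℝ), 0 < r0 ∧ φ '' ball 0 1 = ball p r0 := by
  classical
  obtain ⟨j0, k0, hjk, hcjk, hj3⟩ := htop
  -- the degree in `conj z`
  obtain ⟨N, hNk, hNd, ⟨j1, hj1⟩, hNmax⟩ : ∃ N : ℕ, k0 ≤ N ∧ N ≤ d ∧ (∃ j, c j N ≠ 0) ∧
      ∀ k, N < k → ∀ j, c j k = 0 := by
    have hP0 : ∃ j, c j k0 ≠ 0 := ⟨j0, hcjk⟩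
    refine ⟨Nat.findGreatest (fun k => ∃ j, c j k ≠ 0) d, ?_, Nat.findGreatest_le d, ?_, ?_⟩
    · exact Nat.le_findGreatest (by omega) hP0
    · exact Nat.findGreatest_spec (P := fun k => ∃ j, c j k ≠ 0) (by omega : k0 ≤ d) hP0
    · intro k hk j
      by_contra hne
      rcases Nat.lt_or_ge d k with h | h
      · exact hne (hc j k (by omega))
      · exact Nat.findGreatest_is_greatest hk h ⟨j, hne⟩
  have hdeg : ∀ j, 3 < j → c j N = 0 := fun j hj => hc j N (by omega)
  obtain ⟨q, hq⟩ : ∃ q : ℕ → Polynomial ℂ,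
      q = fun k => ∑ j ∈ Finset.range (d + 1), Polynomial.C (c j k) * Polynomial.X ^ j := ⟨_, rfl⟩
  have hqc : ∀ j k, (q k).coeff j = c j k := by
    intro j k
    rw [hq]
    simp only [Polynomial.finsetSum_coeff, Polynomial.coeff_C_mul, Polynomial.coeff_X_pow,
      mul_ite, mul_one, mul_zero]
    rw [Finset.sum_ite_eq (Finset.range (d + 1)) j]
    split_ifs with h
    · rfl
    · rw [Finset.mem_range, not_lt] at h
      exact (hc j k (by omega)).symm
  have hqN : q N ≠ 0 := by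
    intro h0
    apply hj1
    rw [← hqc, h0, Polynomial.coeff_zero]
  have hqd : (q N).natDegree ≤ 3 := by
    rw [Polynomial.natDegree_le_iff_coeff_eq_zero]
    intro j hj
    rw [hqc]
    exact hdeg j hj
  have hqe : ∀ k z, (q k).eval z = ∑ j ∈ Finset.range (d + 1), c j k * z ^ j := by
    intro k z
    rw [hq]
    simp [Polynomial.eval_finsetSum]
  have han : ∀ k ζ, AnalyticAt ℂ (fun z => (q k).eval z) ζ := fun k ζ =>
    (q k).differentiable.analyticAt ζ
  refine main_alg φ r lam hr hφ hinj hlam hS univ isOpen_univ (subset_univ _) N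
    (fun k z => (q k).eval z) (fun k _ => (q k).differentiable.differentiableOn) ?_ ?_ ?_
  · -- not identically zero
    by_contra hcon
    push Not at hcon
    have h0 : (0 : ℂ) ∈ ball (0 : ℂ) r := mem_ball_self (by linarith)
    have hinf : (φ '' ball 0 1).Infinite := by
      have h1 : (ball (0 : ℂ) 1).Infinite := by
        have := (isOpen_ball (x := (0 : ℂ)) (ε := 1)).mem_nhds (mem_ball_self one_pos)
        exact infinite_of_mem_nhds (0 : ℂ) this
      exact h1.image (hinj.mono (ball_subset_ball hr.le))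
    have hfin : {z | z ∈ (q N).roots.toFinset}.Finite := Finset.finite_toSet _
    refine hinf (hfin.subset fun z hz => ?_)
    show z ∈ (q N).roots.toFinset
    rw [Multiset.mem_toFinset, Polynomial.mem_roots hqN]
    exact hcon z hz
  · intro z hz
    have h1 := hvan z hz
    rw [Finset.sum_comm] at h1
    have h2 : ∑ k ∈ Finset.range (d + 1), (q k).eval z * conj z ^ k = 0 := by
      rw [← h1]
      refine Finset.sum_congr rfl fun k _ => ?_
      rw [hqe, Finset.sum_mul]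
    rw [← h2]
    refine Finset.sum_subset (Finset.range_mono (by omega)) fun k _ hk => ?_
    rw [Finset.mem_range, not_lt] at hk
    rw [hqe]
    rw [Finset.sum_eq_zero, zero_mul]
    intro j _
    rw [hNmax k (by omega), zero_mul]
  · intro P _ P' _ hB hB'
    exact poly_double (q N) hqN hqd P P' (bad_double N _ P (fun k _ => han k P) hB)
      (bad_double N _ P' (fun k _ => han k P') hB')

/-- the corollary for algebraic curves -/
theorem main_curve (φ : ℂ → ℂ) (r lam : ℝ) (hr : 1 < r) (hφ : DifferentiableOn ℂ φ (ball 0 r))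
    (hinj : InjOn φ (ball 0 r)) (hlam : 0 < lam) (hS : Solvable (φ '' ball 0 1) lam)
    (d : ℕ) (c : ℕ → ℕ → ℂ) (hc : ∀ j k, d < j + k → c j k = 0)
    (htop : ∃ j k, j + k = d ∧ c j k ≠ 0 ∧ (j ≤ 3 ∨ k ≤ 3))
    (hvan : ∀ z ∈ φ '' sphere 0 1, ∑ j ∈ Finset.range (d + 1), ∑ k ∈ Finset.range (d + 1),
      c j k * z ^ j * conj z ^ k = 0) :
    ∃ (p : ℂ) (r0 : ℝ), 0 < r0 ∧ φ '' ball 0 1 = ball p r0 := by
  obtain ⟨j0, k0, hjk, hcjk, h3 | h3⟩ := htop
  · exact main_curve0 φ r lam hr hφ hinj hlam hS d c hc ⟨j0, k0, hjk, hcjk, h3⟩ hvan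
  · refine main_curve0 φ r lam hr hφ hinj hlam hS d (fun j k => conj (c k j)) ?_
      ⟨k0, j0, by omega, (map_ne_zero _).2 hcjk, h3⟩ ?_
    · intro j k hjk'
      show conj (c k j) = 0
      rw [hc k j (by omega), map_zero]
    · intro z hz
      have h1 := congrArg conj (hvan z hz)
      rw [map_zero, Finset.sum_comm, map_sum] at h1
      rw [← h1]
      refine Finset.sum_congr rfl fun j _ => ?_
      rw [map_sum]
      refine Finset.sum_congr rfl fun k _ => ?_
      rw [map_mul, map_mul, map_pow, map_pow, Complex.conj_conj]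
      ring

end Pool.Agent.P8H73.SF
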