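import Mathlib

/-!
Moving an interior point to the centre by an automorphism of the disc.
-/

set_option autoImplicit false

open Complex Metric Set Filter Topology ComplexConjugate

namespace Pool.Agent.P8H73.SF

/-- the automorphism of the disc -/
noncomputable def mb (a v : ℂ) : ℂ := (v + a) / (1 + conj a * v)

theorem mb_den {a v : ℂ} (ha : ‖a‖ < 1) (hv : ‖v‖ ≤ 1) : 1 + conj a * v ≠ 0 := by
  intro h
  have h1 : conj a * v = -1 := by linear_combination h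
  have h2 : ‖conj a * v‖ = 1 := by rw [h1, norm_neg, norm_one]
  rw [norm_mul, RCLike.norm_conj] at h2
  nlinarith [norm_nonneg a, norm_nonneg v]

theorem mb_id (a v : ℂ) :
    ‖1 + conj a * v‖ ^ 2 - ‖v + a‖ ^ 2 = (1 - ‖a‖ ^ 2) * (1 - ‖v‖ ^ 2) := by
  simp only [← Complex.normSq_eq_norm_sq, Complex.normSq_apply, Complex.add_re, Complex.add_im,
    Complex.mul_re, Complex.mul_im, Complex.conj_re, Complex.conj_im, Complex.one_re,
    Complex.one_im]
  ring

theorem mb_lt {a v : ℂ} (ha : ‖a‖ < 1) (h0 : 1 + conj a * v ≠ 0) : ‖mb a v‖ < 1 ↔ ‖v‖ < 1 := by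
  have h1 := mb_id a v
  have hn : 0 < ‖1 + conj a * v‖ := norm_pos_iff.2 h0
  have ha2 : 0 < 1 - ‖a‖ ^ 2 := by nlinarith [norm_nonneg a]
  unfold mb
  rw [norm_div, div_lt_one hn]
  constructor
  · intro h
    by_contra h2
    have h2' := not_lt.1 h2
    have h3 : (1 - ‖a‖ ^ 2) * (1 - ‖v‖ ^ 2) ≤ 0 :=
      mul_nonpos_of_nonneg_of_nonpos ha2.le (by nlinarith)
    nlinarith [norm_nonneg (v + a)]
  · intro h
    have h3 : 0 < (1 - ‖a‖ ^ 2) * (1 - ‖v‖ ^ 2) := mul_pos ha2 (by nlinarith [norm_nonneg v])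
    nlinarith [norm_nonneg (v + a)]

theorem mb_eq {a v : ℂ} (ha : ‖a‖ < 1) (h0 : 1 + conj a * v ≠ 0) : ‖mb a v‖ = 1 ↔ ‖v‖ = 1 := by
  have h1 := mb_id a v
  have hn : 0 < ‖1 + conj a * v‖ := norm_pos_iff.2 h0
  have ha2 : 0 < 1 - ‖a‖ ^ 2 := by nlinarith [norm_nonneg a]
  unfold mb
  rw [norm_div, div_eq_one_iff_eq hn.ne']
  constructor
  · intro h
    rw [h] at h1
    have h2 : (1 - ‖a‖ ^ 2) * (1 - ‖v‖ ^ 2) = 0 := by linarith
    rcases mul_eq_zero.1 h2 with h3 | h3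
    · exact absurd h3 ha2.ne'
    · have h4 : ‖v‖ ^ 2 = 1 := by linarith
      exact (pow_eq_one_iff_of_nonneg (norm_nonneg v) two_ne_zero).1 h4
  · intro h
    rw [h] at h1
    have h2 : ‖v + a‖ ^ 2 = ‖1 + conj a * v‖ ^ 2 := by linarith
    exact (pow_left_inj₀ (norm_nonneg _) (norm_nonneg _) two_ne_zero).1 h2

theorem mb_surj {a w : ℂ} (ha : ‖a‖ < 1) (hw : ‖w‖ ≤ 1) :
    ∃ v : ℂ, 1 + conj a * v ≠ 0 ∧ mb a v = w := by
  have h0 : 1 + conj (-a) * w ≠ 0 := mb_den (by rwa [norm_neg]) hw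
  rw [map_neg] at h0
  have h0' : 1 - conj a * w ≠ 0 := by
    intro h
    apply h0
    linear_combination h
  have ha2 : (1 : ℂ) - conj a * a ≠ 0 := by
    intro h
    have h1 : conj a * a = 1 := by linear_combination -h
    have h2 : ‖conj a * a‖ = 1 := by rw [h1, norm_one]
    rw [norm_mul, RCLike.norm_conj] at h2
    nlinarith [norm_nonneg a]
  have e1 : 1 + conj a * ((w - a) / (1 - conj a * w)) = (1 - conj a * a) / (1 - conj a * w) := by
    rw [eq_div_iff h0', add_mul, mul_assoc, div_mul_cancel₀ _ h0']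
    ring
  have e2 : (w - a) / (1 - conj a * w) + a = (1 - conj a * a) * w / (1 - conj a * w) := by
    rw [eq_div_iff h0', add_mul, div_mul_cancel₀ _ h0']
    ring
  refine ⟨(w - a) / (1 - conj a * w), ?_, ?_⟩
  · rw [e1]
    exact div_ne_zero ha2 h0'
  · unfold mb
    rw [e1, e2]
    field_simp

theorem mb_inj {a v v' : ℂ} (ha : ‖a‖ < 1) (h0 : 1 + conj a * v ≠ 0) (h0' : 1 + conj a * v' ≠ 0)
    (h : mb a v = mb a v') : v = v' := by
  unfold mb at h
  rw [div_eq_div_iff h0 h0'] at h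
  have ha2 : (1 : ℂ) - conj a * a ≠ 0 := by
    intro h
    have h1 : conj a * a = 1 := by linear_combination -h
    have h2 : ‖conj a * a‖ = 1 := by rw [h1, norm_one]
    rw [norm_mul, RCLike.norm_conj] at h2
    nlinarith [norm_nonneg a]
  have h1 : (v - v') * (1 - conj a * a) = 0 := by linear_combination h
  rcases mul_eq_zero.1 h1 with h2 | h2
  · exact sub_eq_zero.1 h2
  · exact absurd h2 ha2

theorem mob (φ : ℂ → ℂ) (r : ℝ) (hr : 1 < r) (hφ : DifferentiableOn ℂ φ (ball 0 r))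
    (hinj : InjOn φ (ball 0 r)) (a : ℂ) (ha : ‖a‖ < 1) :
    ∃ (φ1 : ℂ → ℂ) (r1 : ℝ), 1 < r1 ∧ DifferentiableOn ℂ φ1 (ball 0 r1) ∧
      InjOn φ1 (ball 0 r1) ∧ φ1 '' ball 0 1 = φ '' ball 0 1 ∧
      φ1 '' sphere 0 1 = φ '' sphere 0 1 ∧ φ1 0 = φ a := by
  obtain ⟨U, hU⟩ : ∃ U : Set ℂ, U = {v : ℂ | 1 + conj a * v ≠ 0} := ⟨_, rfl⟩
  have hUo : IsOpen U := by
    rw [hU]
    exact isOpen_ne_fun (by fun_prop) continuous_const
  have hMd : DifferentiableOn ℂ (mb a) U := by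
    intro v hv
    rw [hU] at hv
    have h1 : DifferentiableAt ℂ (fun v : ℂ => v + a) v := by fun_prop
    have h2 : DifferentiableAt ℂ (fun v : ℂ => 1 + conj a * v) v := by fun_prop
    exact (h1.div h2 hv).differentiableWithinAt
  have hWo : IsOpen (U ∩ (mb a) ⁻¹' ball 0 r) := hMd.continuousOn.isOpen_inter_preimage hUo isOpen_ball
  have hsub : closedBall (0 : ℂ) 1 ⊆ U ∩ (mb a) ⁻¹' ball 0 r := by
    intro v hv
    rw [mem_closedBall_zero_iff] at hv
    have h0 := mb_den ha hv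
    refine ⟨by rw [hU]; exact h0, ?_⟩
    rw [mem_preimage, mem_ball_zero_iff]
    rcases lt_or_eq_of_le hv with h | h
    · exact ((mb_lt ha h0).2 h).trans hr
    · rw [(mb_eq ha h0).2 h]
      exact hr
  obtain ⟨δ, hδ, hthick⟩ := (isCompact_closedBall (0 : ℂ) 1).exists_cthickening_subset_open hWo hsub
  rw [cthickening_closedBall hδ.le zero_le_one] at hthick
  have hb : ball (0 : ℂ) (1 + δ) ⊆ U ∩ (mb a) ⁻¹' ball 0 r := by
    refine (ball_subset_closedBall).trans ?_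
    rw [add_comm]
    exact hthick
  refine ⟨φ ∘ mb a, 1 + δ, by linarith, ?_, ?_, ?_, ?_, ?_⟩
  · exact hφ.comp (hMd.mono (hb.trans inter_subset_left)) fun v hv => (hb hv).2
  · intro v hv v' hv' h
    have h1 := hinj (hb hv).2 (hb hv').2 h
    have h2 := (hb hv).1
    have h3 := (hb hv').1
    rw [hU] at h2 h3
    exact mb_inj ha h2 h3 h1
  · ext x
    constructor
    · rintro ⟨v, hv, rfl⟩
      rw [mem_ball_zero_iff] at hv
      exact ⟨mb a v, mem_ball_zero_iff.2 ((mb_lt ha (mb_den ha hv.le)).2 hv), rfl⟩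
    · rintro ⟨w, hw, rfl⟩
      rw [mem_ball_zero_iff] at hw
      obtain ⟨v, hv0, hvw⟩ := mb_surj ha hw.le
      rw [← hvw] at hw
      exact ⟨v, mem_ball_zero_iff.2 ((mb_lt ha hv0).1 hw), by rw [Function.comp_apply, hvw]⟩
  · ext x
    constructor
    · rintro ⟨v, hv, rfl⟩
      rw [mem_sphere_zero_iff_norm] at hv
      exact ⟨mb a v, mem_sphere_zero_iff_norm.2 ((mb_eq ha (mb_den ha hv.le)).2 hv), rfl⟩
    · rintro ⟨w, hw, rfl⟩
      rw [mem_sphere_zero_iff_norm] at hw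
      obtain ⟨v, hv0, hvw⟩ := mb_surj ha hw.le
      rw [← hvw] at hw
      exact ⟨v, mem_sphere_zero_iff_norm.2 ((mb_eq ha hv0).1 hw), by rw [Function.comp_apply, hvw]⟩
  · show φ (mb a 0) = φ a
    unfold mb
    simp

end Pool.Agent.P8H73.SF
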