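import Pool.Agent.Results.MP_83fd13_an.BranchSingularities
import Pool.Agent.P8H73.SF.Glue
import Pool.Agent.P8H73.SF.Mob
import Pool.Agent.P8H73.SF.Local

/-!
Extension of the Riemann map across a good point of its circle of convergence.
-/

set_option autoImplicit false

open MeasureTheory Complex Metric Set Filter Topology ComplexConjugate
open Pool.Agent.Results.MP_83fd13_an.BranchSingularities (Solvable Branch BranchesBlowUp
  NoFiniteIsolatedSingularity)

namespace Pool.Agent.P8H73.SF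

/-- bad points of the equation `∑ a k z * w ^ k = 0` -/
def Bad (N : ℕ) (a : ℕ → ℂ → ℂ) (ζ : ℂ) : Prop :=
  ∃ (e : ℕ) (g : ℕ → ℂ → ℂ),
    (∀ i ≤ N, AnalyticAt ℂ (g i) ζ ∧
      ∀ᶠ z in 𝓝 ζ, a (N - i) z * (z - ζ) ^ i = (z - ζ) ^ e * g i z) ∧
    (∃ Z, HH N g ζ Z ≠ 0) ∧ ∃ Z, HH N g ζ Z = 0 ∧ HD N g ζ Z = 0

theorem exists_factor (N : ℕ) (a : ℕ → ℂ → ℂ) (ζ : ℂ) (ha : ∀ k ≤ N, AnalyticAt ℂ (a k) ζ)
    (hN : ¬ ∀ᶠ z in 𝓝 ζ, a N z = 0) :
    ∃ (e : ℕ) (g : ℕ → ℂ → ℂ),
      (∀ i ≤ N, AnalyticAt ℂ (g i) ζ ∧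
        ∀ᶠ z in 𝓝 ζ, a (N - i) z * (z - ζ) ^ i = (z - ζ) ^ e * g i z) ∧
      ∃ Z, HH N g ζ Z ≠ 0 := by
  obtain ⟨f, hf⟩ : ∃ f : ℕ → ℂ → ℂ, f = fun i z => a (N - i) z * (z - ζ) ^ i := ⟨_, rfl⟩
  have hfan : ∀ i, AnalyticAt ℂ (f i) ζ := by
    intro i
    rw [hf]
    exact (ha (N - i) (Nat.sub_le N i)).mul ((analyticAt_id.sub analyticAt_const).pow i)
  obtain ⟨i0, hi0, hmin⟩ := Finset.exists_min_image (Finset.range (N + 1))
    (fun i => analyticOrderAt (f i) ζ) ⟨0, Finset.mem_range.2 (Nat.succ_pos N)⟩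
  have hfin : analyticOrderAt (f i0) ζ ≠ ⊤ := by
    intro htop
    have h1 := hmin 0 (Finset.mem_range.2 (Nat.succ_pos N))
    rw [htop, top_le_iff, analyticOrderAt_eq_top] at h1
    apply hN
    filter_upwards [h1] with z hz
    rw [hf] at hz
    simpa using hz
  obtain ⟨e, he⟩ := ENat.ne_top_iff_exists.1 hfin
  have hex : ∀ i, i ≤ N → ∃ g : ℂ → ℂ, AnalyticAt ℂ g ζ ∧
      (∀ᶠ z in 𝓝 ζ, f i z = (z - ζ) ^ e • g z) ∧ (i = i0 → g ζ ≠ 0) := by
    intro i hi
    by_cases h : i = i0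
    · obtain ⟨g, h1, h2, h3⟩ := (hfan i).analyticOrderAt_eq_natCast.1
        (by rw [h]; exact he.symm : analyticOrderAt (f i) ζ = e)
      exact ⟨g, h1, h3, fun _ => h2⟩
    · have h1 := hmin i (Finset.mem_range.2 (Nat.lt_succ_of_le hi))
      rw [← he] at h1
      obtain ⟨g, h2, h3⟩ := (natCast_le_analyticOrderAt (hfan i)).1 h1
      exact ⟨g, h2, h3, fun h' => absurd h' h⟩
  choose! g hg1 hg2 hg3 using hex
  refine ⟨e, g, fun i hi => ⟨hg1 i hi, ?_⟩, ?_⟩
  · filter_upwards [hg2 i hi] with z hz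
    rw [hf, smul_eq_mul] at hz
    exact hz
  · by_contra hcon
    push Not at hcon
    have hi0' : i0 ≤ N := Nat.lt_succ_iff.1 (Finset.mem_range.1 hi0)
    apply hg3 i0 hi0' rfl
    have hp : (∑ i ∈ Finset.range (N + 1), Polynomial.C (g i ζ) * Polynomial.X ^ i) =
        (0 : Polynomial ℂ) := by
      refine Polynomial.funext fun Z => ?_
      rw [Polynomial.eval_zero, ← hcon Z]
      unfold HH
      simp [Polynomial.eval_finsetSum]
    have h1 := congrArg (fun p : Polynomial ℂ => p.coeff i0) hp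
    simp only [Polynomial.finset_sum_coeff, Polynomial.coeff_C_mul, Polynomial.coeff_X_pow,
      mul_ite, mul_one, mul_zero, Polynomial.coeff_zero] at h1
    rw [Finset.sum_ite_eq (Finset.range (N + 1)) i0, if_pos hi0] at h1
    exact h1

theorem refl_diff (f : ℂ → ℂ) (w : ℂ) (hw : w ≠ 0) (hf : DifferentiableAt ℂ f (1 / conj w)) :
    DifferentiableAt ℂ (fun w => conj (f (1 / conj w))) w := by
  have h2 : DifferentiableAt ℂ (conj ∘ f ∘ conj) (w⁻¹) := by
    rw [differentiableAt_conj_conj_iff]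
    have : conj (w⁻¹) = 1 / conj w := by rw [map_inv₀, one_div]
    rw [this]
    exact hf
  have h3 : (fun w => conj (f (1 / conj w))) = (conj ∘ f ∘ conj) ∘ (fun v : ℂ => v⁻¹) := by
    funext v
    simp only [Function.comp_apply, map_inv₀, one_div]
  rw [h3]
  exact h2.comp w (differentiableAt_inv hw)

theorem low_bound (φ : ℂ → ℂ) (P : ℂ) (hd : DifferentiableAt ℂ φ P) (h0 : deriv φ P ≠ 0) :
    ∃ κ : ℝ, 0 < κ ∧ ∀ᶠ v in 𝓝 P, κ * ‖v - P‖ ≤ ‖φ v - φ P‖ := by
  have h1 := hasDerivAt_iff_isLittleO.1 hd.hasDerivAt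
  have hn : 0 < ‖deriv φ P‖ := norm_pos_iff.2 h0
  refine ⟨‖deriv φ P‖ / 2, by linarith, ?_⟩
  filter_upwards [h1.bound (show 0 < ‖deriv φ P‖ / 2 by linarith)] with v hv
  have h2 : ‖(v - P) • deriv φ P‖ = ‖v - P‖ * ‖deriv φ P‖ := norm_smul _ _
  have h3 : ‖(v - P) • deriv φ P‖ ≤ ‖φ v - φ P‖ + ‖φ v - φ P - (v - P) • deriv φ P‖ := by
    have := norm_sub_le (φ v - φ P) (φ v - φ P - (v - P) • deriv φ P)
    rwa [sub_sub_cancel] at this
  rw [h2] at h3
  linarith

theorem branch_radial (φ ψ : ℂ → ℂ) (r R : ℝ) (hr : 1 < r) (hrR : r ≤ R)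
    (hψ : DifferentiableOn ℂ ψ (ball 0 R)) (hψφ : EqOn ψ φ (ball 0 r)) (z : ℂ) (hz1 : 1 < ‖z‖)
    (hz2 : ‖z‖ < R) : Branch φ r z ψ := by
  have hz0 : 0 < ‖z‖ := by linarith
  obtain ⟨e, he⟩ : ∃ e : ℂ, e = z / (‖z‖ : ℂ) := ⟨_, rfl⟩
  have hen : ‖e‖ = 1 := by
    rw [he, norm_div, Complex.norm_real, norm_norm, div_self hz0.ne']
  have hze : z = (‖z‖ : ℂ) * e := by
    rw [he]
    have : (‖z‖ : ℂ) ≠ 0 := by exact_mod_cast hz0.ne'
    field_simp
  obtain ⟨b, hb1, hb2⟩ := exists_between hz2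
  obtain ⟨s, hs1, hs2⟩ := exists_between (lt_min hr (hz1.trans hb1))
  have hsr : s < r := lt_of_lt_of_le hs2 (min_le_left _ _)
  have hsb : s < b := lt_of_lt_of_le hs2 (min_le_right _ _)
  have hmem : ∀ q : ℝ, 1 < q → q < b →
      (q : ℂ) * e ∈ ball (((1 + b) / 2 : ℝ) * e : ℂ) ((b - 1) / 2) := by
    intro q hq1 hq2
    rw [mem_ball_iff_norm, ← sub_mul, norm_mul, hen, mul_one, ← Complex.ofReal_sub,
      Complex.norm_real, Real.norm_eq_abs, abs_lt]
    constructor <;> linarith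
  have hin : ∀ w ∈ ball (((1 + b) / 2 : ℝ) * e : ℂ) ((b - 1) / 2), 1 < ‖w‖ ∧ ‖w‖ < b := by
    intro w hw
    rw [mem_ball_iff_norm] at hw
    have hc : ‖(((1 + b) / 2 : ℝ) * e : ℂ)‖ = (1 + b) / 2 := by
      rw [norm_mul, hen, mul_one, Complex.norm_real, Real.norm_of_nonneg (by linarith)]
    constructor
    · have := norm_sub_norm_le (((1 + b) / 2 : ℝ) * e : ℂ) w
      rw [norm_sub_rev, hc] at this
      linarith
    · have := norm_sub_norm_le w (((1 + b) / 2 : ℝ) * e : ℂ)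
      rw [hc] at this
      linarith
  have hse : ‖(s : ℂ) * e‖ = s := by
    rw [norm_mul, hen, mul_one, Complex.norm_real, Real.norm_of_nonneg (by linarith)]
  refine Branch.step ((s : ℂ) * e) z _ _ φ ψ (Branch.base _ (by rw [hse]; exact hs1)
    (by rw [hse]; exact hsr)) (fun w hw => (hin w hw).1)
    (hψ.mono fun w hw => mem_ball_zero_iff.2 ((hin w hw).2.trans hb2)) (hmem s hs1 hsb) ?_ ?_
  · have := hmem ‖z‖ hz1 hb1
    rwa [← hze] at this
  · filter_upwards [isOpen_ball.mem_nhds (mem_ball_zero_iff.2 (by rw [hse]; exact hsr) :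
      (s : ℂ) * e ∈ ball (0 : ℂ) r)] with w hw
    exact (hψφ hw).symm

/-- the unit circle accumulates at each of its points -/
theorem circle_acc (e : ℂ) (he : ‖e‖ = 1) : ∃ᶠ w in 𝓝[≠] e, ‖w‖ = 1 := by
  have h1 : Tendsto (fun x : ℝ => e * exp (x * I)) (𝓝[≠] 0) (𝓝[≠] e) := by
    rw [tendsto_nhdsWithin_iff]
    constructor
    · have h2 : ContinuousAt (fun x : ℝ => e * exp (x * I)) 0 := by fun_prop
      have h3 := h2.tendsto
      simp only [Complex.ofReal_zero, zero_mul, Complex.exp_zero, mul_one] at h3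
      exact h3.mono_left nhdsWithin_le_nhds
    · have h2 : ∀ᶠ x : ℝ in 𝓝[≠] 0, |x| < 1 := by
        apply Filter.Eventually.filter_mono nhdsWithin_le_nhds
        have h3 : Tendsto (fun x : ℝ => |x|) (𝓝 0) (𝓝 0) := by
          have := continuous_abs.tendsto (0 : ℝ)
          rwa [abs_zero] at this
        exact h3.eventually (gt_mem_nhds one_pos)
      filter_upwards [h2, self_mem_nhdsWithin] with x hx1 hx0
      intro heq
      have he0 : e ≠ 0 := by
        rintro rfl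
        rw [norm_zero] at he
        norm_num at he
      have h10 : exp ((x : ℂ) * I) = 1 := by
        have h11 : e * exp ((x : ℂ) * I) = e * 1 := by
          rw [mul_one]
          exact heq
        exact mul_left_cancel₀ he0 h11
      rw [exp_eq_one_iff] at h10
      obtain ⟨m, hm⟩ := h10
      have h13 : x = m * (2 * Real.pi) := by
        have h14 : (x : ℂ) = m * (2 * Real.pi) := by
          have hI : (I : ℂ) ≠ 0 := I_ne_zero
          apply mul_right_cancel₀ hI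
          rw [hm]
          ring
        exact_mod_cast h14
      have hm0 : m = 0 := by
        by_contra hm0
        have h8 : (1 : ℝ) ≤ |(m : ℝ)| := by
          have : 1 ≤ |m| := Int.one_le_abs hm0
          exact_mod_cast this
        have h9 := Real.pi_gt_three
        rw [h13, abs_mul, abs_of_pos (by positivity : (0 : ℝ) < 2 * Real.pi)] at hx1
        nlinarith
      rw [hm0] at h13
      exact hx0 (by simpa using h13)
  refine h1.frequently ?_
  apply Filter.Eventually.frequently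
  exact Filter.Eventually.of_forall fun x => by
    rw [norm_mul, he, Complex.norm_exp_ofReal_mul_I, mul_one]

theorem ext_step (φ : ℂ → ℂ) (r lam : ℝ) (hr : 1 < r) (hφ : DifferentiableOn ℂ φ (ball 0 r))
    (hinj : InjOn φ (ball 0 r)) (hlam : 0 < lam) (hBB : BranchesBlowUp φ r lam)
    (hNI : NoFiniteIsolatedSingularity φ r) (V : Set ℂ) (hV : IsOpen V)
    (hcl : φ '' closedBall 0 1 ⊆ V) (N : ℕ) (a : ℕ → ℂ → ℂ)
    (ha : ∀ k ≤ N, DifferentiableOn ℂ (a k) V) (hne : ∃ z ∈ φ '' ball 0 1, a N z ≠ 0)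
    (hrel : ∀ z ∈ φ '' sphere 0 1, ∑ k ∈ Finset.range (N + 1), a k z * conj z ^ k = 0)
    (R : ℝ) (ψ : ℂ → ℂ) (hrR : r ≤ R) (hψ : DifferentiableOn ℂ ψ (ball 0 R))
    (hψφ : EqOn ψ φ (ball 0 r)) (w1 : ℂ) (hw1 : w1 ∈ sphere (0 : ℂ) R)
    (hgood : ¬ Bad N a (φ (1 / conj w1))) :
    ∃ (ε : ℝ) (E : ℂ → ℂ), 0 < ε ∧ DifferentiableOn ℂ E (ball w1 ε) ∧
      ∀ z ∈ ball w1 ε ∩ ball 0 R, E z = ψ z := by
  have hR1 : 1 < R := by linarith
  have hR0 : 0 < R := by linarith
  have hw1n : ‖w1‖ = R := by simpa using hw1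
  have hw10 : w1 ≠ 0 := by
    rintro rfl
    rw [norm_zero] at hw1n
    linarith
  obtain ⟨P, hP⟩ : ∃ P : ℂ, P = 1 / conj w1 := ⟨_, rfl⟩
  rw [← hP] at hgood
  have hinvn : ∀ w : ℂ, ‖1 / conj w‖ = 1 / ‖w‖ := fun w => by
    rw [norm_div, norm_one, RCLike.norm_conj]
  have hPn : ‖P‖ < 1 := by
    rw [hP, hinvn, hw1n, div_lt_one hR0]
    exact hR1
  have hPb : P ∈ ball (0 : ℂ) 1 := mem_ball_zero_iff.2 hPn
  have hPr : P ∈ ball (0 : ℂ) r := mem_ball_zero_iff.2 (hPn.trans hr)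
  obtain ⟨e1, he1⟩ : ∃ e1 : ℂ, e1 = w1 / (R : ℂ) := ⟨_, rfl⟩
  have hRc : (R : ℂ) ≠ 0 := by exact_mod_cast hR0.ne'
  have he1n : ‖e1‖ = 1 := by
    rw [he1, norm_div, hw1n, Complex.norm_real, Real.norm_of_nonneg hR0.le, div_self hR0.ne']
  have hw1e : w1 = (R : ℂ) * e1 := by
    rw [he1]
    field_simp
  obtain ⟨ζ, hζ⟩ : ∃ ζ : ℂ, ζ = φ P := ⟨_, rfl⟩
  rw [← hζ] at hgood
  have hζV : ζ ∈ V := by
    rw [hζ]
    exact hcl ⟨P, ball_subset_closedBall hPb, rfl⟩
  -- (1) the relation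
  obtain ⟨δ, hδ, hthick⟩ := (isCompact_closedBall (0 : ℂ) 1).exists_cthickening_subset_open
    (hφ.continuousOn.isOpen_inter_preimage isOpen_ball hV) (fun v hv =>
      (⟨closedBall_subset_ball hr hv, hcl ⟨v, hv, rfl⟩⟩ : v ∈ ball (0 : ℂ) r ∩ φ ⁻¹' V))
  rw [cthickening_closedBall hδ.le zero_le_one] at hthick
  have hb : ∀ v : ℂ, ‖v‖ < 1 + δ → ‖v‖ < r ∧ φ v ∈ V := by
    intro v hv
    have h1 : v ∈ closedBall (0 : ℂ) (δ + 1) := by
      rw [mem_closedBall_zero_iff]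
      linarith
    have h2 := hthick h1
    exact ⟨mem_ball_zero_iff.1 h2.1, h2.2⟩
  obtain ⟨t, ht⟩ : ∃ t : ℝ, t = 1 / (1 + δ) := ⟨_, rfl⟩
  have ht0 : 0 < t := by rw [ht]; positivity
  have ht1 : t < 1 := by
    rw [ht, div_lt_one (by linarith)]
    linarith
  have htinv : ∀ w : ℂ, t < ‖w‖ → ‖1 / conj w‖ < 1 + δ := by
    intro w hw
    rw [hinvn]
    have : 0 < ‖w‖ := ht0.trans hw
    rw [ht] at hw
    rw [div_lt_iff₀ this]
    rw [div_lt_iff₀ (by linarith)] at hw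
    linarith
  obtain ⟨A, hA⟩ : ∃ A : ℕ → ℂ → ℂ, A = fun k w => conj (a k (φ (1 / conj w))) := ⟨_, rfl⟩
  have hAd : ∀ k ≤ N, ∀ w : ℂ, t < ‖w‖ → DifferentiableAt ℂ (A k) w := by
    intro k hk w hw
    have hw0 : w ≠ 0 := by
      rintro rfl
      rw [norm_zero] at hw
      linarith
    obtain ⟨h1, h2⟩ := hb _ (htinv w hw)
    rw [hA]
    have h3 : DifferentiableAt ℂ (fun v => a k (φ v)) (1 / conj w) :=
      DifferentiableAt.comp (f := φ) (1 / conj w)
        ((ha k hk).differentiableAt (hV.mem_nhds h2))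
        (hφ.differentiableAt (isOpen_ball.mem_nhds (mem_ball_zero_iff.2 h1)))
    exact refl_diff (fun v => a k (φ v)) w hw0 h3
  obtain ⟨Q, hQ⟩ : ∃ Q : ℂ → ℂ, Q = fun w => ∑ k ∈ Finset.range (N + 1), A k w * ψ w ^ k :=
    ⟨_, rfl⟩
  have hballn : ∀ (s : ℝ), 0 < s → s < R → ∀ w ∈ ball (((R + s) / 2 : ℝ) * e1 : ℂ) ((R - s) / 2),
      s < ‖w‖ ∧ ‖w‖ < R := by
    intro s hs0 hs w hw
    rw [mem_ball_iff_norm] at hw
    have hc : ‖(((R + s) / 2 : ℝ) * e1 : ℂ)‖ = (R + s) / 2 := by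
      rw [norm_mul, he1n, mul_one, Complex.norm_real, Real.norm_of_nonneg (by linarith)]
    constructor
    · have := norm_sub_norm_le (((R + s) / 2 : ℝ) * e1 : ℂ) w
      rw [norm_sub_rev, hc] at this
      linarith
    · have := norm_sub_norm_le w (((R + s) / 2 : ℝ) * e1 : ℂ)
      rw [hc] at this
      linarith
  have hQd : DifferentiableOn ℂ Q (ball (((R + t) / 2 : ℝ) * e1 : ℂ) ((R - t) / 2)) := by
    intro w hw
    obtain ⟨h1, h2⟩ := hballn t ht0 (by linarith) w hw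
    apply DifferentiableAt.differentiableWithinAt
    rw [hQ]
    refine DifferentiableAt.fun_sum fun k hk => ?_
    have hk' : k ≤ N := Nat.lt_succ_iff.1 (Finset.mem_range.1 hk)
    exact (hAd k hk' w h1).mul
      ((hψ.differentiableAt (isOpen_ball.mem_nhds (mem_ball_zero_iff.2 h2))).pow k)
  have hQc : ∀ w : ℂ, ‖w‖ = 1 → Q w = 0 := by
    intro w hw
    have hw0 : w ≠ 0 := by
      rintro rfl
      rw [norm_zero] at hw
      norm_num at hw
    have h1 : 1 / conj w = w := by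
      have h2 : w * conj w = 1 := by
        rw [Complex.mul_conj, Complex.normSq_eq_norm_sq, hw]
        norm_num
      rw [div_eq_iff ((map_ne_zero _).2 hw0)]
      exact h2.symm
    have h3 := hrel (φ w) ⟨w, mem_sphere_zero_iff_norm.2 hw, rfl⟩
    have h4 : ψ w = φ w := hψφ (mem_ball_zero_iff.2 (by rw [hw]; exact hr))
    rw [hQ, hA]
    simp only [h1, h4]
    have h5 := congrArg conj h3
    rw [map_sum, map_zero] at h5
    rw [← h5]
    refine Finset.sum_congr rfl fun k _ => ?_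
    rw [map_mul, map_pow, Complex.conj_conj]
  have hQ0 : EqOn Q 0 (ball (((R + t) / 2 : ℝ) * e1 : ℂ) ((R - t) / 2)) := by
    refine (hQd.analyticOnNhd isOpen_ball).eqOn_zero_of_preconnected_of_frequently_eq_zero
      (convex_ball _ _).isPreconnected (z₀ := e1) ?_ ?_
    · rw [mem_ball_iff_norm]
      have : e1 - (((R + t) / 2 : ℝ) : ℂ) * e1 = ((1 - (R + t) / 2 : ℝ) : ℂ) * e1 := by
        push_cast
        ring
      rw [this, norm_mul, he1n, mul_one, Complex.norm_real, Real.norm_eq_abs, abs_lt]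
      constructor <;> linarith
    · exact (circle_acc e1 he1n).mono fun w hw => hQc w hw
  -- (3) the factorisation at `ζ`
  have haan : ∀ k ≤ N, AnalyticAt ℂ (a k) ζ := fun k hk =>
    (ha k hk).analyticAt (hV.mem_nhds hζV)
  have hφP : AnalyticAt ℂ φ P := hφ.analyticAt (isOpen_ball.mem_nhds hPr)
  have hNev : ¬ ∀ᶠ z in 𝓝 ζ, a N z = 0 := by
    intro hev
    have h1 : ∀ᶠ v in 𝓝 P, a N (φ v) = 0 := by
      have := hφP.continuousAt.tendsto
      rw [← hζ] at this
      exact this.eventually hev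
    have h2 : DifferentiableOn ℂ (fun v => a N (φ v)) (ball 0 1) := by
      refine (ha N le_rfl).comp (hφ.mono (ball_subset_ball hr.le)) fun v hv => ?_
      exact hcl ⟨v, ball_subset_closedBall hv, rfl⟩
    have h3 : EqOn (fun v => a N (φ v)) 0 (ball 0 1) :=
      (h2.analyticOnNhd isOpen_ball).eqOn_zero_of_preconnected_of_eventuallyEq_zero
        (convex_ball _ _).isPreconnected hPb h1
    obtain ⟨z, ⟨v, hv, rfl⟩, hz⟩ := hne
    exact hz (h3 hv)
  obtain ⟨e, g, hfac, hgZ⟩ := exists_factor N a ζ haan hNev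
  have hsimp : ∀ Z, HH N g ζ Z = 0 → HD N g ζ Z ≠ 0 := fun Z hz hd =>
    hgood ⟨e, g, hfac, hgZ, Z, hz, hd⟩
  -- (4) reflection
  have htend : Tendsto (fun w : ℂ => 1 / conj w) (𝓝 w1) (𝓝 P) := by
    rw [hP]
    have : ContinuousAt (fun w : ℂ => 1 / conj w) w1 :=
      continuousAt_const.div Complex.continuous_conj.continuousAt ((map_ne_zero _).2 hw10)
    exact this.tendsto
  have htendφ : Tendsto (fun w : ℂ => φ (1 / conj w)) (𝓝 w1) (𝓝 ζ) := by
    rw [hζ]
    exact hφP.continuousAt.tendsto.comp htend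
  obtain ⟨h, hh⟩ : ∃ h : ℕ → ℂ → ℂ, h = fun i w => conj (g i (φ (1 / conj w))) := ⟨_, rfl⟩
  have hhan : ∀ i ≤ N, AnalyticAt ℂ (h i) w1 := by
    intro i hi
    have h1 : AnalyticAt ℂ (fun v => g i (φ v)) P := by
      have h2 := (hfac i hi).1
      rw [hζ] at h2
      exact h2.comp hφP
    rw [Complex.analyticAt_iff_eventually_differentiableAt] at h1 ⊢
    have h0 : ∀ᶠ w in 𝓝 w1, w ≠ 0 := isOpen_ne.mem_nhds hw10
    filter_upwards [htend.eventually h1, h0] with w hw hw0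
    rw [hh]
    exact refl_diff (fun v => g i (φ v)) w hw0 hw
  have hh1 : ∀ i, h i w1 = conj (g i ζ) := fun i => by rw [hh, hζ, hP]
  have hHH : ∀ Z, HH N h w1 Z = conj (HH N g ζ (conj Z)) := by
    intro Z
    unfold HH
    rw [map_sum]
    refine Finset.sum_congr rfl fun i _ => ?_
    rw [hh1, map_mul, map_pow, Complex.conj_conj]
  have hHD : ∀ Z, HD N h w1 Z = conj (HD N g ζ (conj Z)) := by
    intro Z
    unfold HD
    rw [map_sum]
    refine Finset.sum_congr rfl fun i _ => ?_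
    rw [hh1, map_mul, map_mul, map_pow, Complex.conj_conj, map_natCast]
  obtain ⟨x, hx⟩ : ∃ x : ℂ → ℂ, x = fun w => conj (φ (1 / conj w)) - conj ζ := ⟨_, rfl⟩
  have hinv1 : ∀ w : ℂ, 1 < ‖w‖ → 1 / conj w ∈ ball (0 : ℂ) 1 := by
    intro w hw
    rw [mem_ball_zero_iff, hinvn, div_lt_one (by linarith)]
    exact hw
  have hxd : ∀ w : ℂ, 1 < ‖w‖ → DifferentiableAt ℂ x w := by
    intro w hw
    have hw0 : w ≠ 0 := by
      rintro rfl
      rw [norm_zero] at hw
      linarith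
    rw [hx]
    exact (refl_diff φ w hw0 (hφ.differentiableAt (isOpen_ball.mem_nhds
      (ball_subset_ball hr.le (hinv1 w hw))))).sub_const _
  have hx0 : ∀ w : ℂ, 1 < ‖w‖ → w ≠ w1 → x w ≠ 0 := by
    intro w hw hne h0
    rw [hx] at h0
    simp only at h0
    rw [sub_eq_zero] at h0
    have h1 := (starRingEnd ℂ).injective h0
    rw [hζ] at h1
    have h2 := hinj (ball_subset_ball hr.le (hinv1 w hw)) hPr h1
    apply hne
    rw [hP, one_div, one_div, inv_inj] at h2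
    exact (starRingEnd ℂ).injective h2
  have hrelx : ∀ᶠ w in 𝓝 w1, ∀ i ∈ Finset.range (N + 1),
      A (N - i) w * x w ^ i = x w ^ e * h i w := by
    rw [Filter.eventually_all_finset]
    intro i hi
    have hi' : i ≤ N := Nat.lt_succ_iff.1 (Finset.mem_range.1 hi)
    filter_upwards [htendφ.eventually (hfac i hi').2] with w hw
    have h1 := congrArg conj hw
    rw [map_mul, map_mul, map_pow, map_pow, map_sub] at h1
    rw [hA, hx, hh]
    exact h1
  -- (5) the inner tangent disc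
  obtain ⟨s, hs⟩ : ∃ s : ℝ, s = (R + 1) / 2 := ⟨_, rfl⟩
  have hs1 : 1 < s := by rw [hs]; linarith
  have hsR : s < R := by rw [hs]; linarith
  obtain ⟨c, hc⟩ : ∃ c : ℂ, c = (((R + s) / 2 : ℝ) : ℂ) * e1 := ⟨_, rfl⟩
  obtain ⟨ρ, hρd⟩ : ∃ ρ : ℝ, ρ = (R - s) / 2 := ⟨_, rfl⟩
  have hρ : 0 < ρ := by rw [hρd]; linarith
  have hcn : ‖c‖ = (R + s) / 2 := by
    rw [hc, norm_mul, he1n, mul_one, Complex.norm_real, Real.norm_of_nonneg (by linarith)]
  have hcb : ∀ w ∈ ball c ρ, s < ‖w‖ ∧ ‖w‖ < R := by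
    intro w hw
    rw [hc, hρd] at hw
    exact hballn s (by linarith) hsR w hw
  have hccb : ∀ w ∈ closedBall c ρ, 1 < ‖w‖ := by
    intro w hw
    rw [mem_closedBall_iff_norm] at hw
    have := norm_sub_norm_le c w
    rw [norm_sub_rev, hcn] at this
    linarith
  have hcB1 : ball c ρ ⊆ ball (((R + t) / 2 : ℝ) * e1 : ℂ) ((R - t) / 2) := by
    intro w hw
    rw [mem_ball_iff_norm] at hw ⊢
    have h1 : ‖c - (((R + t) / 2 : ℝ) : ℂ) * e1‖ = (s - t) / 2 := by
      have : c - (((R + t) / 2 : ℝ) : ℂ) * e1 = (((s - t) / 2 : ℝ) : ℂ) * e1 := by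
        rw [hc]
        push_cast
        ring
      rw [this, norm_mul, he1n, mul_one, Complex.norm_real, Real.norm_of_nonneg (by linarith)]
    have h2 := norm_add_le (w - c) (c - (((R + t) / 2 : ℝ) : ℂ) * e1)
    rw [sub_add_sub_cancel, h1] at h2
    linarith
  have hw1s : w1 ∈ sphere c ρ := by
    rw [mem_sphere_iff_norm]
    have : w1 - c = (((R - s) / 2 : ℝ) : ℂ) * e1 := by
      rw [hc, hw1e]
      push_cast
      ring
    rw [this, norm_mul, he1n, mul_one, Complex.norm_real, Real.norm_of_nonneg (by linarith), hρd]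
  have hψc : DifferentiableOn ℂ ψ (ball c ρ) := hψ.mono fun w hw =>
    mem_ball_zero_iff.2 (hcb w hw).2
  have hc1 : ∀ w ∈ ball c ρ, 1 < ‖w‖ := fun w hw => hccb w (ball_subset_closedBall hw)
  have hcne : ∀ w ∈ ball c ρ, w ≠ w1 := by
    rintro w hw rfl
    have := (hcb w hw).2
    linarith
  -- (6) the function `y`
  have hycont : ContinuousOn (fun w => x w * ψ w) (ball c ρ) := by
    refine ContinuousOn.mul (fun w hw => (hxd w (hc1 w hw)).continuousAt.continuousWithinAt) ?_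
    exact hψc.continuousOn
  have hrel' : ∀ᶠ w in 𝓝 w1, w ∈ ball c ρ → x w * ψ w ≠ 0 → HH N h w (1 / (x w * ψ w)) = 0 := by
    filter_upwards [hrelx] with w hw hwb hy0
    have hxw : x w ≠ 0 := left_ne_zero_of_mul hy0
    have hψw : ψ w ≠ 0 := right_ne_zero_of_mul hy0
    have hq := hQ0 (hcB1 hwb)
    rw [hQ] at hq
    simp only [Pi.zero_apply] at hq
    have h1 : x w ^ e * ψ w ^ N * HH N h w (1 / (x w * ψ w)) = 0 := by
      unfold HH
      rw [Finset.mul_sum, ← hq, ← Finset.sum_range_reflect]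
      refine Finset.sum_congr rfl fun i hi => ?_
      have hi' : i ≤ N := Nat.lt_succ_iff.1 (Finset.mem_range.1 hi)
      have e1 : N + 1 - 1 - i = N - i := by omega
      rw [e1]
      obtain ⟨j, hj⟩ : ∃ j, j = N - i := ⟨_, rfl⟩
      have hjN : i = N - j := by omega
      have hjr : j ∈ Finset.range (N + 1) := Finset.mem_range.2 (by omega)
      have h2 := hw j hjr
      rw [← hj, hjN]
      have h3 : ψ w ^ N = ψ w ^ (N - j) * ψ w ^ j := by
        rw [← pow_add]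
        congr 1
        omega
      rw [one_div, inv_pow, mul_pow, h3]
      have hxj : x w ^ j ≠ 0 := pow_ne_zero _ hxw
      have hψj : ψ w ^ j ≠ 0 := pow_ne_zero _ hψw
      calc x w ^ e * (ψ w ^ (N - j) * ψ w ^ j) * (h j w * (x w ^ j * ψ w ^ j)⁻¹)
          = (x w ^ e * h j w) * ψ w ^ (N - j) * (ψ w ^ j * (x w ^ j * ψ w ^ j)⁻¹) := by ring
        _ = A (N - j) w * x w ^ j * ψ w ^ (N - j) * (ψ w ^ j * (x w ^ j * ψ w ^ j)⁻¹) := by
            rw [h2]
        _ = A (N - j) w * ψ w ^ (N - j) := by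
            field_simp
    rcases mul_eq_zero.1 h1 with h2 | h2
    · exact absurd h2 (mul_ne_zero (pow_ne_zero _ hxw) (pow_ne_zero _ hψw))
    · exact h2
  -- (7) the dichotomy
  have hclos : w1 ∈ closure (ball c ρ) := by
    rw [closure_ball c hρ.ne']
    exact sphere_subset_closedBall hw1s
  have hmain : ∃ (ε : ℝ) (E : ℂ → ℂ), 0 < ε ∧ DifferentiableOn ℂ E (ball w1 ε) ∧
      ∀ w ∈ ball w1 ε ∩ ball c ρ, E w = ψ w := by
    rcases dichotomy N h w1 c ρ (fun w => x w * ψ w) hhan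
      (by
        obtain ⟨Z, hZ⟩ := hgZ
        refine ⟨conj Z, ?_⟩
        rw [hHH, Complex.conj_conj]
        exact (map_ne_zero _).2 hZ)
      (by
        intro Z hZ
        rw [hHH, map_eq_zero] at hZ
        rw [hHD]
        exact (map_ne_zero _).2 (hsimp _ hZ)) hρ hw1s hycont hrel' with hcA | hcB
    · -- small growth
      have hd0 : deriv φ P ≠ 0 := Pool.Agent.Y245.SC.t_NZ φ r hφ hinj P hPr
      obtain ⟨κ, hκ, hκe⟩ := low_bound φ P (hφ.differentiableAt (isOpen_ball.mem_nhds hPr)) hd0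
      obtain ⟨δ3, hδ3, hδ3b⟩ := Metric.eventually_nhds_iff_ball.1 (htend.eventually hκe)
      obtain ⟨L, hL⟩ : ∃ L : ℝ, L = lam * ‖deriv φ P‖ := ⟨_, rfl⟩
      have hL0 : 0 ≤ L := by rw [hL]; positivity
      obtain ⟨η1, hη1, hη1L⟩ : ∃ η1 : ℝ, 0 < η1 ∧ L * η1 < 3 * ‖w1‖ ^ 2 := by
        refine ⟨3 * R ^ 2 / (L + 1), by positivity, ?_⟩
        rw [hw1n, ← mul_div_assoc, div_lt_iff₀ (by linarith)]
        nlinarith [sq_nonneg R, pow_pos hR0 2]
      obtain ⟨δ4, hδ4, hδ4b⟩ := hcA (η1 * κ / R ^ 2) (by positivity)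
      have hbb := hBB c ρ ψ w1 η1 (min δ3 δ4) hρ hccb hψc
        (by
          obtain ⟨z, hz, -⟩ := Metric.mem_closure_iff.1 hclos 1 one_pos
          exact ⟨z, hz, branch_radial φ ψ r R hr hrR hψ hψφ z (hc1 z hz) (hcb z hz).2⟩) hw1s
        (lt_min hδ3 hδ4) (by
          rw [← hP, ← hL]
          exact hη1L) (by
          intro w hwb hwd
          have h1 := hδ4b w hwb (lt_of_lt_of_le hwd (min_le_right _ _))
          have h2 := hδ3b w (mem_ball_iff_norm.2 (lt_of_lt_of_le hwd (min_le_left _ _)))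
          have hwn := hcb w hwb
          have hw0 : w ≠ 0 := by
            rintro rfl
            rw [norm_zero] at hwn
            linarith [hwn.1]
          have hwpos : 0 < ‖w‖ := norm_pos_iff.2 hw0
          have h3 : ‖1 / conj w - P‖ = ‖w - w1‖ / (‖w‖ * R) := by
            have hcw : conj w ≠ 0 := (map_ne_zero _).2 hw0
            have hcw1 : conj w1 ≠ 0 := (map_ne_zero _).2 hw10
            have : 1 / conj w - P = conj (w1 - w) / (conj w * conj w1) := by
              rw [hP, map_sub]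
              field_simp
            rw [this, norm_div, norm_mul, RCLike.norm_conj, RCLike.norm_conj, RCLike.norm_conj,
              hw1n, norm_sub_rev]
          have h4 : ‖x w‖ = ‖φ (1 / conj w) - φ P‖ := by
            rw [hx]
            simp only
            rw [← map_sub, RCLike.norm_conj, hζ]
          rw [h3, ← h4] at h2
          have h5 : κ * ‖w - w1‖ / R ^ 2 ≤ ‖x w‖ := by
            refine le_trans ?_ h2
            rw [mul_div_assoc]
            refine mul_le_mul_of_nonneg_left ?_ hκ.le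
            refine div_le_div_of_nonneg_left (norm_nonneg _) (by positivity) ?_
            nlinarith
          have h6 : ρ - ‖w - c‖ ≤ ‖w - w1‖ := by
            have h7 : ‖w1 - c‖ = ρ := mem_sphere_iff_norm.1 hw1s
            have h8 := norm_add_le (w1 - w) (w - c)
            rw [sub_add_sub_cancel, h7, norm_sub_rev w1 w] at h8
            linarith
          have h9 : ‖x w‖ * ‖ψ w‖ < η1 * κ / R ^ 2 := by
            rw [← norm_mul]
            exact h1
          have h10 : κ * ‖w - w1‖ / R ^ 2 * ‖ψ w‖ ≤ ‖x w‖ * ‖ψ w‖ :=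
            mul_le_mul_of_nonneg_right h5 (norm_nonneg _)
          have h11 : κ * ‖w - w1‖ / R ^ 2 * ‖ψ w‖ < η1 * κ / R ^ 2 := lt_of_le_of_lt h10 h9
          have h12 : ‖w - w1‖ * ‖ψ w‖ < η1 := by
            have hpos : 0 < κ / R ^ 2 := by positivity
            have h13 : κ * ‖w - w1‖ / R ^ 2 * ‖ψ w‖ = (‖w - w1‖ * ‖ψ w‖) * (κ / R ^ 2) := by ring
            have h14 : η1 * κ / R ^ 2 = η1 * (κ / R ^ 2) := by ring
            rw [h13, h14] at h11
            exact lt_of_mul_lt_mul_right h11 hpos.le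
          exact (mul_le_mul_of_nonneg_right h6 (norm_nonneg _)).trans h12.le)
      exact hbb
    · -- a pole
      obtain ⟨δ3, Zs, hδ3, hZd, hZ0, hZy⟩ := hcB
      obtain ⟨δ4, hδ4, hδ43, hδ4R⟩ : ∃ δ4 : ℝ, 0 < δ4 ∧ δ4 ≤ δ3 ∧ δ4 ≤ R - 1 :=
        ⟨min δ3 (R - 1), lt_min hδ3 (by linarith), min_le_left _ _, min_le_right _ _⟩
      have hout : ∀ w ∈ ball w1 δ4, 1 < ‖w‖ := by
        intro w hw
        rw [mem_ball_iff_norm] at hw
        have := norm_sub_norm_le w1 w
        rw [norm_sub_rev, hw1n] at this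
        linarith
      have hpd : DifferentiableOn ℂ (fun w => 1 / (x w * Zs w)) (ball w1 δ4 \ {w1}) := by
        intro w hw
        apply DifferentiableAt.differentiableWithinAt
        have h1 : DifferentiableAt ℂ Zs w :=
          hZd.differentiableAt (isOpen_ball.mem_nhds (ball_subset_ball hδ43 hw.1))
        exact (differentiableAt_const (1 : ℂ)).div ((hxd w (hout w hw.1)).mul h1)
          (mul_ne_zero (hx0 w (hout w hw.1) hw.2) (hZ0 w (ball_subset_ball hδ43 hw.1) hw.2))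
      have heq : ∀ w ∈ ball c ρ ∩ ball w1 δ4, ψ w = 1 / (x w * Zs w) := by
        intro w hw
        have h1 := hZy w ⟨hw.1, ball_subset_ball hδ43 hw.2⟩
        have hne1 := hcne w hw.1
        have h2 := hx0 w (hc1 w hw.1) hne1
        have h3 := hZ0 w (ball_subset_ball hδ43 hw.2) hne1
        have h4 : x w * ψ w = 1 / Zs w := h1.2
        rw [eq_div_iff (mul_ne_zero h2 h3)]
        rw [eq_div_iff h3] at h4
        linear_combination h4
      have hop : IsOpen (ball c ρ ∩ ball w1 δ4) := isOpen_ball.inter isOpen_ball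
      obtain ⟨z, hz1, hz2⟩ := Metric.mem_closure_iff.1 hclos δ4 hδ4
      have hz : z ∈ ball c ρ ∩ ball w1 δ4 := ⟨hz1, by rw [mem_ball, dist_comm]; exact hz2⟩
      obtain ⟨ρ', hρ', hρ's⟩ := Metric.isOpen_iff.1 hop z hz
      have hbr : Branch φ r z (fun w => 1 / (x w * Zs w)) := by
        refine Branch.step z z z ρ' ψ _
          (branch_radial φ ψ r R hr hrR hψ hψφ z (hc1 z hz1) (hcb z hz1).2)
          (fun w hw => hout w (hρ's hw).2)
          (hpd.mono fun w hw => ⟨(hρ's hw).2, hcne w (hρ's hw).1⟩)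
          (mem_ball_self hρ') (mem_ball_self hρ') ?_
        filter_upwards [hop.mem_nhds hz] with w hw
        exact heq w hw
      obtain ⟨E, hE, hEe⟩ := hNI w1 δ4 _ hδ4 hout hpd ⟨z, ⟨hz.2, hcne z hz1⟩, hbr⟩
      refine ⟨δ4, E, hδ4, hE, fun w hw => ?_⟩
      rw [hEe w hw.1 (hcne w hw.2)]
      exact (heq w ⟨hw.2, hw.1⟩).symm
  -- (8) the identity theorem
  obtain ⟨ε, E, hε, hE, hEψ⟩ := hmain
  refine ⟨ε, E, hε, hE, ?_⟩
  have hcv : Convex ℝ (ball w1 ε ∩ ball 0 R) := (convex_ball w1 ε).inter (convex_ball 0 R)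
  have hop : IsOpen (ball w1 ε ∩ ball 0 R) := isOpen_ball.inter isOpen_ball
  obtain ⟨z, hz1, hz2⟩ := Metric.mem_closure_iff.1 hclos ε hε
  have hzw : z ∈ ball w1 ε := by rw [mem_ball, dist_comm]; exact hz2
  refine AnalyticOnNhd.eqOn_of_preconnected_of_eventuallyEq (z₀ := z)
    ((hE.mono inter_subset_left).analyticOnNhd hop)
    ((hψ.mono inter_subset_right).analyticOnNhd hop) hcv.isPreconnected
    ⟨hzw, mem_ball_zero_iff.2 (hcb z hz1).2⟩ ?_
  filter_upwards [(isOpen_ball.inter isOpen_ball).mem_nhds (⟨hzw, hz1⟩ : z ∈ ball w1 ε ∩ ball c ρ)]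
    with w hw
  exact hEψ w hw

end Pool.Agent.P8H73.SF
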